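import Mathlib

/-!
# Eigenvectors of perturbations of diagonal matrices with arbitrarily large gaps
-/

set_option autoImplicit false
set_option linter.unusedSectionVars false

open Filter Set Metric Topology

namespace Pool.Agent.Y368.SLD

variable {d : ℕ}

/-- the map -/
noncomputable def Psi (E : Matrix (Fin d) (Fin d) ℂ) (i : Fin d) (q : Fin d → ℂ)
    (x : Fin d → ℂ) : Fin d → ℂ :=
  fun j => if j = i then 1 else (E.mulVec x) j / ((1 + (E.mulVec x) i) * q j - 1)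

theorem low {c δ : ℝ} (hc : 0 < c) (hc1 : c ≤ 1) (hδ : δ ≤ c / 16) {ν q : ℂ} (hν : ‖ν - 1‖ ≤ δ)
    (hq : c ≤ ‖q - 1‖) : c / 4 ≤ ‖ν * q - 1‖ ∧ c / 4 * ‖q‖ ≤ ‖ν * q - 1‖ := by
  have hδ0 : 0 ≤ δ := (norm_nonneg _).trans hν
  rcases le_or_gt ‖q‖ 2 with h | h
  · have h1 : ‖q - 1‖ ≤ ‖ν * q - 1‖ + ‖ν - 1‖ * ‖q‖ := by
      have e : q - 1 = (ν * q - 1) - (ν - 1) * q := by ring
      rw [e]
      refine (norm_sub_le _ _).trans ?_
      rw [norm_mul]
    have h2 : ‖ν - 1‖ * ‖q‖ ≤ δ * 2 := mul_le_mul hν h (norm_nonneg _) hδ0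
    constructor
    · linarith
    · nlinarith [norm_nonneg q]
  · have h1 : ‖q‖ ≤ ‖ν * q - 1‖ + ‖ν - 1‖ * ‖q‖ + 1 := by
      have e : q = (ν * q - 1) - (ν - 1) * q + 1 := by ring
      calc ‖q‖ = ‖(ν * q - 1) - (ν - 1) * q + 1‖ := by rw [← e]
        _ ≤ ‖(ν * q - 1) - (ν - 1) * q‖ + ‖(1 : ℂ)‖ := norm_add_le _ _
        _ ≤ (‖ν * q - 1‖ + ‖(ν - 1) * q‖) + 1 := by
            rw [norm_one]
            have := norm_sub_le (ν * q - 1) ((ν - 1) * q)
            linarith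
        _ = _ := by rw [norm_mul]
    have h2 : ‖ν - 1‖ * ‖q‖ ≤ 1 / 16 * ‖q‖ :=
      mul_le_mul_of_nonneg_right (by linarith) (norm_nonneg _)
    have h3 : c / 4 * ‖q‖ ≤ 1 / 4 * ‖q‖ := mul_le_mul_of_nonneg_right (by linarith) (norm_nonneg _)
    constructor <;> linarith

section

variable {c δ : ℝ} (hc : 0 < c) (hc1 : c ≤ 1) (hδ : δ ≤ c / 16) {E : Matrix (Fin d) (Fin d) ℂ}
  (hE : ∀ x : Fin d → ℂ, ‖E.mulVec x‖ ≤ δ * ‖x‖) {i : Fin d} {q : Fin d → ℂ}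
  (hq : ∀ j, j ≠ i → c ≤ ‖q j - 1‖)

include hc hc1 hδ hE hq

theorem psi_bd {x : Fin d → ℂ} (hx : ‖x‖ ≤ 1) {j : Fin d} (hj : j ≠ i) :
    ‖Psi E i q x j‖ ≤ 4 * δ / c := by
  have hδ0 : 0 ≤ δ := by
    have h1 := hE (fun _ => 1)
    have h2 : ‖(fun _ : Fin d => (1 : ℂ))‖ = 1 := by
      have : Nonempty (Fin d) := ⟨i⟩
      rw [pi_norm_const, norm_one]
    rw [h2, mul_one] at h1
    exact (norm_nonneg _).trans h1
  have hEx : ‖E.mulVec x‖ ≤ δ := (hE x).trans (by nlinarith)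
  have h1 : ‖(E.mulVec x) j‖ ≤ δ := (norm_le_pi_norm _ j).trans hEx
  have h2 : ‖(1 + (E.mulVec x) i) - 1‖ ≤ δ := by
    rw [add_sub_cancel_left]
    exact (norm_le_pi_norm _ i).trans hEx
  have h3 := (low hc hc1 hδ h2 (hq j hj)).1
  rw [Psi, if_neg hj, norm_div]
  rw [div_le_div_iff₀ (by linarith) hc]
  nlinarith

theorem psi_lip {x y : Fin d → ℂ} (hx : ‖x‖ ≤ 1) (hy : ‖y‖ ≤ 1) :
    ‖Psi E i q x - Psi E i q y‖ ≤ 1 / 2 * ‖x - y‖ := by
  have hδ0 : 0 ≤ δ := by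
    have h1 := hE (fun _ => 1)
    have h2 : ‖(fun _ : Fin d => (1 : ℂ))‖ = 1 := by
      have : Nonempty (Fin d) := ⟨i⟩
      rw [pi_norm_const, norm_one]
    rw [h2, mul_one] at h1
    exact (norm_nonneg _).trans h1
  have hEx : ‖E.mulVec x‖ ≤ δ := (hE x).trans (by nlinarith)
  have hEy : ‖E.mulVec y‖ ≤ δ := (hE y).trans (by nlinarith)
  rw [pi_norm_le_iff_of_nonneg (by positivity)]
  intro j
  by_cases hj : j = i
  · simp only [Pi.sub_apply, Psi, if_pos hj, sub_self, norm_zero]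
    positivity
  · obtain ⟨ν, hν⟩ : ∃ ν, ν = 1 + (E.mulVec x) i := ⟨_, rfl⟩
    obtain ⟨ν', hν'⟩ : ∃ ν', ν' = 1 + (E.mulVec y) i := ⟨_, rfl⟩
    have h2 : ‖ν - 1‖ ≤ δ := by
      rw [hν, add_sub_cancel_left]
      exact (norm_le_pi_norm _ i).trans hEx
    have h2' : ‖ν' - 1‖ ≤ δ := by
      rw [hν', add_sub_cancel_left]
      exact (norm_le_pi_norm _ i).trans hEy
    obtain ⟨a1, a2⟩ := low hc hc1 hδ h2 (hq j hj)
    obtain ⟨b1, b2⟩ := low hc hc1 hδ h2' (hq j hj)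
    have hsub : ∀ l, (E.mulVec x) l - (E.mulVec y) l = (E.mulVec (x - y)) l := by
      intro l
      rw [Matrix.mulVec_sub]
      rfl
    have hnl : ∀ l, ‖(E.mulVec (x - y)) l‖ ≤ δ * ‖x - y‖ := fun l =>
      (norm_le_pi_norm _ l).trans (hE _)
    have n1 : 0 < ‖ν * q j - 1‖ := by linarith
    have n2 : 0 < ‖ν' * q j - 1‖ := by linarith
    have n1' : ν * q j - 1 ≠ 0 := norm_pos_iff.1 n1
    have n2' : ν' * q j - 1 ≠ 0 := norm_pos_iff.1 n2
    simp only [Pi.sub_apply, Psi, if_neg hj]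
    rw [← hν, ← hν']
    have e : (E.mulVec x) j / (ν * q j - 1) - (E.mulVec y) j / (ν' * q j - 1) =
        (E.mulVec (x - y)) j / (ν * q j - 1) +
        (E.mulVec y) j * (-(E.mulVec (x - y)) i) * (q j / (ν * q j - 1)) / (ν' * q j - 1) := by
      have e1 : -(E.mulVec (x - y)) i = ν' - ν := by
        rw [← hsub, hν, hν']
        ring
      rw [← hsub j, e1]
      obtain ⟨u, hu⟩ : ∃ u, u = ν * q j - 1 := ⟨_, rfl⟩
      obtain ⟨w, hw⟩ : ∃ w, w = ν' * q j - 1 := ⟨_, rfl⟩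
      have huw : (ν' - ν) * q j = w - u := by rw [hu, hw]; ring
      rw [← hu] at n1' ⊢
      rw [← hw] at n2' ⊢
      have e2 : (E.mulVec y) j * (ν' - ν) * (q j / u) / w =
          (E.mulVec y) j * ((ν' - ν) * q j) / (u * w) := by
        field_simp
      rw [e2, huw]
      field_simp
      ring
    rw [e]
    refine (norm_add_le _ _).trans ?_
    have t1 : ‖(E.mulVec (x - y)) j / (ν * q j - 1)‖ ≤ 1 / 4 * ‖x - y‖ := by
      rw [norm_div, div_le_iff₀ n1]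
      refine (hnl j).trans ?_
      have h5 : δ ≤ 1 / 4 * (c / 4) := by linarith
      have h6 : 1 / 4 * (c / 4) ≤ 1 / 4 * ‖ν * q j - 1‖ := by linarith
      calc δ * ‖x - y‖ ≤ (1 / 4 * ‖ν * q j - 1‖) * ‖x - y‖ :=
            mul_le_mul_of_nonneg_right (h5.trans h6) (norm_nonneg _)
        _ = _ := by ring
    have t3 : ‖q j / (ν * q j - 1)‖ ≤ 4 / c := by
      rw [norm_div, div_le_div_iff₀ n1 hc]
      nlinarith
    have t2 : ‖(E.mulVec y) j * (-(E.mulVec (x - y)) i) * (q j / (ν * q j - 1)) /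
        (ν' * q j - 1)‖ ≤ 1 / 4 * ‖x - y‖ := by
      rw [norm_div, norm_mul, norm_mul, norm_neg, div_le_iff₀ n2]
      have h5 : ‖(E.mulVec y) j‖ ≤ δ := (norm_le_pi_norm _ j).trans hEy
      have h6 : ‖(E.mulVec y) j‖ * ‖(E.mulVec (x - y)) i‖ ≤ δ * (δ * ‖x - y‖) :=
        mul_le_mul h5 (hnl i) (norm_nonneg _) hδ0
      have h7 : ‖(E.mulVec y) j‖ * ‖(E.mulVec (x - y)) i‖ * ‖q j / (ν * q j - 1)‖ ≤
          δ * (δ * ‖x - y‖) * (4 / c) :=
        mul_le_mul h6 t3 (norm_nonneg _) (by positivity)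
      refine h7.trans ?_
      have h8 : δ * (4 / c) ≤ 1 / 4 := by
        rw [mul_div_assoc', div_le_iff₀ hc]
        linarith
      have h9 : δ ≤ ‖ν' * q j - 1‖ := by linarith
      calc δ * (δ * ‖x - y‖) * (4 / c) = (δ * (4 / c)) * δ * ‖x - y‖ := by ring
        _ ≤ 1 / 4 * ‖ν' * q j - 1‖ * ‖x - y‖ := by
            refine mul_le_mul_of_nonneg_right ?_ (norm_nonneg _)
            exact mul_le_mul h8 h9 hδ0 (by norm_num)
        _ = _ := by ring
    linarith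

theorem psi_iff {x : Fin d → ℂ} (hx : ‖x‖ ≤ 1) (hqi : q i = 1) :
    (x i = 1 ∧ ∀ j, x j + (E.mulVec x) j = (1 + (E.mulVec x) i) * q j * x j) ↔
      Psi E i q x = x := by
  have hδ0 : 0 ≤ δ := by
    have h1 := hE (fun _ => 1)
    have h2 : ‖(fun _ : Fin d => (1 : ℂ))‖ = 1 := by
      have : Nonempty (Fin d) := ⟨i⟩
      rw [pi_norm_const, norm_one]
    rw [h2, mul_one] at h1
    exact (norm_nonneg _).trans h1
  have hEx : ‖E.mulVec x‖ ≤ δ := (hE x).trans (by nlinarith)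
  have h2 : ‖(1 + (E.mulVec x) i) - 1‖ ≤ δ := by
    rw [add_sub_cancel_left]
    exact (norm_le_pi_norm _ i).trans hEx
  have hne : ∀ j, j ≠ i → (1 + (E.mulVec x) i) * q j - 1 ≠ 0 := by
    intro j hj
    have h3 := (low hc hc1 hδ h2 (hq j hj)).1
    exact norm_pos_iff.1 (by linarith)
  constructor
  · rintro ⟨h3, h4⟩
    funext j
    by_cases hj : j = i
    · rw [Psi, if_pos hj, hj, h3]
    · rw [Psi, if_neg hj, div_eq_iff (hne j hj)]
      linear_combination h4 j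
  · intro h3
    have h4 : x i = 1 := by
      have := congrFun h3 i
      rw [Psi, if_pos rfl] at this
      exact this.symm
    refine ⟨h4, fun j => ?_⟩
    by_cases hj : j = i
    · rw [hj, h4, hqi]
      ring
    · have h5 := congrFun h3 j
      rw [Psi, if_neg hj, div_eq_iff (hne j hj)] at h5
      linear_combination h5

theorem eig_ex (hqi : q i = 1) : ∃ x : Fin d → ℂ, ‖x‖ ≤ 1 ∧ x i = 1 ∧
    (∀ j, j ≠ i → ‖x j‖ ≤ 4 * δ / c) ∧
    ∀ j, x j + (E.mulVec x) j = (1 + (E.mulVec x) i) * q j * x j := by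
  have hδc : 4 * δ / c ≤ 1 := by
    rw [div_le_one hc]
    linarith
  have hcomp : IsComplete (closedBall (0 : Fin d → ℂ) 1) := isClosed_closedBall.isComplete
  have hmaps : MapsTo (Psi E i q) (closedBall (0 : Fin d → ℂ) 1) (closedBall (0 : Fin d → ℂ) 1) := by
    intro x hx
    rw [mem_closedBall_zero_iff] at hx ⊢
    rw [pi_norm_le_iff_of_nonneg zero_le_one]
    intro j
    by_cases hj : j = i
    · rw [Psi, if_pos hj, norm_one]
    · exact (psi_bd hc hc1 hδ hE hq hx hj).trans hδc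
  have hcontr : ContractingWith (1 / 2) (hmaps.restrict (Psi E i q) _ _) := by
    refine ⟨by
      rw [← NNReal.coe_lt_coe]
      norm_num, ?_⟩
    refine LipschitzWith.of_dist_le_mul fun x y => ?_
    have h1 := psi_lip hc hc1 hδ hE hq (mem_closedBall_zero_iff.1 x.2)
      (mem_closedBall_zero_iff.1 y.2)
    have h2 : ((1 / 2 : NNReal) : ℝ) = 1 / 2 := by norm_num
    rw [h2]
    rw [Subtype.dist_eq, Subtype.dist_eq, dist_eq_norm, dist_eq_norm]
    exact h1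
  obtain ⟨x, hx, hfx, -⟩ := hcontr.exists_fixedPoint' hcomp hmaps
    (mem_closedBall_self zero_le_one) (edist_ne_top _ _)
  rw [mem_closedBall_zero_iff] at hx
  obtain ⟨h1, h2⟩ := (psi_iff hc hc1 hδ hE hq hx hqi).2 hfx
  refine ⟨x, hx, h1, fun j hj => ?_, h2⟩
  have h3 : Psi E i q x = x := hfx
  rw [← h3]
  exact psi_bd hc hc1 hδ hE hq hx hj

theorem eig_uni (hqi : q i = 1) {x y : Fin d → ℂ} (hx : ‖x‖ ≤ 1) (hy : ‖y‖ ≤ 1)
    (hxi : x i = 1) (hyi : y i = 1)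
    (hxe : ∀ j, x j + (E.mulVec x) j = (1 + (E.mulVec x) i) * q j * x j)
    (hye : ∀ j, y j + (E.mulVec y) j = (1 + (E.mulVec y) i) * q j * y j) : x = y := by
  have h1 := (psi_iff hc hc1 hδ hE hq hx hqi).1 ⟨hxi, hxe⟩
  have h2 := (psi_iff hc hc1 hδ hE hq hy hqi).1 ⟨hyi, hye⟩
  have h3 := psi_lip hc hc1 hδ hE hq hx hy
  rw [h1, h2] at h3
  have h4 : ‖x - y‖ = 0 := le_antisymm (by linarith [norm_nonneg (x - y)]) (norm_nonneg _)
  exact sub_eq_zero.1 (norm_eq_zero.1 h4)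

end

end Pool.Agent.Y368.SLD
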