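import Pool.Agent.Y368.SLD.Frame
import Pool.Agent.Y368.SLD.Eig

/-!
# Conjugation of perturbations of large powers
-/

set_option autoImplicit false
set_option linter.unusedSectionVars false

open scoped Topology ContDiff
open Filter Set Metric

namespace Pool.Agent.Y368.SLD

open Pool.Agent.H718R2.G

variable {d : ℕ}

/-- `h` is diagonal in the frame `f` with eigenvalues `lam`. -/
structure Diag (f : Frame d) (h : SLd d) (lam : Fin d → ℂ) : Prop where
  ne : ∀ i, lam i ≠ 0
  conj : ∀ i, (starRingEnd ℂ) (lam i) = lam (f.τ i)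
  eq : f.R * toC h.1 = Matrix.diagonal lam * f.R

theorem Diag.eq' {f : Frame d} {h : SLd d} {lam : Fin d → ℂ} (hd : Diag f h lam) :
    toC h.1 = f.Q * Matrix.diagonal lam * f.R := by
  rw [mul_assoc, ← hd.eq, ← mul_assoc, f.QR, one_mul]

theorem conj_pow (f : Frame d) (D : Fin d → ℂ) (k : ℕ) :
    (f.Q * Matrix.diagonal D * f.R) ^ k = f.Q * Matrix.diagonal (fun i => D i ^ k) * f.R := by
  induction k with
  | zero => 
    have : (Matrix.diagonal (fun i => D i ^ 0)) = (1 : Mc d) := by
      rw [← Matrix.diagonal_one]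
      congr 1
    rw [this, mul_one, f.QR, pow_zero]
  | succ k ih =>
    rw [pow_succ, ih]
    have e : f.Q * Matrix.diagonal (fun i => D i ^ k) * f.R * (f.Q * Matrix.diagonal D * f.R) =
        f.Q * (Matrix.diagonal (fun i => D i ^ k) * (f.R * f.Q) * Matrix.diagonal D) * f.R := by
      simp only [mul_assoc]
    rw [e, f.RQ, mul_one, Matrix.diagonal_mul_diagonal]
    rfl

theorem Diag.pow {f : Frame d} {h : SLd d} {lam : Fin d → ℂ} (hd : Diag f h lam) (k : ℕ) :
    toC (h ^ k).1 = f.Q * Matrix.diagonal (fun i => lam i ^ k) * f.R := by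
  rw [Matrix.SpecialLinearGroup.coe_pow, map_pow, hd.eq', conj_pow]

/-- The algebraic part: for one perturbation. -/
theorem conj_one (f : Frame d) {h : SLd d} {lam : Fin d → ℂ} (hd : Diag f h lam) {c δ : ℝ}
    (hc : 0 < c) (hc1 : c ≤ 1) (hδ : δ ≤ c / 16) (k : ℕ)
    (hgap : ∀ i j, j ≠ i → c ≤ ‖(lam j / lam i) ^ k - 1‖) (v : SLd d)
    (hE : ∀ x : Fin d → ℂ, ‖(f.R * toC (v⁻¹).1 * f.Q - 1).mulVec x‖ ≤ δ * ‖x‖) :
    ∃ (X : Mc d) (ν : Fin d → ℂ), (∀ i, X i i = 1) ∧ (∀ i j, j ≠ i → ‖X j i‖ ≤ 4 * δ / c) ∧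
      (∀ i, ‖ν i - 1‖ ≤ δ) ∧ (∀ i j, (starRingEnd ℂ) (X i j) = X (f.τ i) (f.τ j)) ∧
      (∀ i, (starRingEnd ℂ) (ν i) = ν (f.τ i)) ∧
      toC v.1 * f.Q * (Matrix.diagonal (fun i => lam i ^ k) * X * Matrix.diagonal ν) =
        f.Q * X * Matrix.diagonal (fun i => lam i ^ k) := by
  obtain ⟨E, hEd⟩ : ∃ E : Mc d, E = f.R * toC (v⁻¹).1 * f.Q - 1 := ⟨_, rfl⟩
  rw [← hEd] at hE
  have hδ0 : ∀ i : Fin d, 0 ≤ δ := by
    intro i
    have h1 := hE (fun _ => 1)
    have h2 : ‖(fun _ : Fin d => (1 : ℂ))‖ = 1 := by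
      have : Nonempty (Fin d) := ⟨i⟩
      rw [pi_norm_const, norm_one]
    rw [h2, mul_one] at h1
    exact (norm_nonneg _).trans h1
  have hq1 : ∀ i, (fun j => (lam j / lam i) ^ k) i = 1 := by
    intro i
    simp only
    rw [div_self (hd.ne i), one_pow]
  have hex := fun i => eig_ex hc hc1 hδ hE (i := i) (q := fun j => (lam j / lam i) ^ k)
    (hgap i) (hq1 i)
  choose x hx1 hxi hxs hxe using hex
  have hsymE : ∀ i j, (starRingEnd ℂ) (E i j) = E (f.τ i) (f.τ j) := by
    intro i j
    rw [hEd, Matrix.sub_apply, Matrix.sub_apply, map_sub, f.sym]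
    congr 1
    by_cases hij : i = j
    · subst hij
      rw [Matrix.one_apply_eq, Matrix.one_apply_eq, map_one]
    · rw [Matrix.one_apply_ne hij, Matrix.one_apply_ne (fun h' => hij (f.τ.injective h')), map_zero]
  have hsymx : ∀ i j, (starRingEnd ℂ) (x i j) = x (f.τ i) (f.τ j) := by
    intro i
    obtain ⟨y, hy⟩ : ∃ y : Fin d → ℂ, y = fun j => (starRingEnd ℂ) (x i (f.τ j)) := ⟨_, rfl⟩
    have hEy : ∀ j, (E.mulVec y) j = (starRingEnd ℂ) ((E.mulVec (x i)) (f.τ j)) := by
      intro j
      rw [Matrix.mulVec, Matrix.mulVec, dotProduct, dotProduct, map_sum]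
      rw [← Equiv.sum_comp f.τ (fun l => (starRingEnd ℂ) (E (f.τ j) l * x i l))]
      refine Finset.sum_congr rfl fun l _ => ?_
      rw [map_mul, hsymE, f.inv, f.inv, hy]
    have hy1 : ‖y‖ ≤ 1 := by
      rw [pi_norm_le_iff_of_nonneg zero_le_one]
      intro j
      rw [hy]
      simp only
      rw [RCLike.norm_conj]
      exact (norm_le_pi_norm _ _).trans (hx1 i)
    have hyi : y (f.τ i) = 1 := by
      rw [hy]
      simp only
      rw [f.inv, hxi, map_one]
    have hye : ∀ j, y j + (E.mulVec y) j = (1 + (E.mulVec y) (f.τ i)) *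
        (fun j => (lam j / lam (f.τ i)) ^ k) j * y j := by
      intro j
      rw [hEy, hEy, f.inv]
      have h1 := congrArg (starRingEnd ℂ) (hxe i (f.τ j))
      simp only [map_add, map_mul, map_one, map_pow, map_div₀] at h1
      rw [hd.conj, hd.conj, f.inv] at h1
      rw [hy]
      simp only
      exact h1
    have h2 := eig_uni hc hc1 hδ hE (i := f.τ i) (q := fun j => (lam j / lam (f.τ i)) ^ k)
      (hgap (f.τ i)) (hq1 (f.τ i)) (hx1 (f.τ i)) hy1 (hxi (f.τ i)) hyi (hxe (f.τ i)) hye
    intro j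
    rw [h2, hy]
    simp only
    rw [f.inv]
  refine ⟨fun j i => x i j, fun i => 1 + (E.mulVec (x i)) i, hxi, fun i j hj => hxs i j hj, ?_,
    fun i j => hsymx j i, ?_, ?_⟩
  · intro i
    rw [add_sub_cancel_left]
    refine (norm_le_pi_norm _ i).trans ((hE _).trans ?_)
    have := hx1 i
    have := hδ0 i
    nlinarith
  · intro i
    rw [map_add, map_one]
    congr 1
    rw [Matrix.mulVec, Matrix.mulVec, dotProduct, dotProduct, map_sum]
    rw [← Equiv.sum_comp f.τ (fun l => E (f.τ i) l * x (f.τ i) l)]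
    refine Finset.sum_congr rfl fun l _ => ?_
    rw [map_mul, hsymE, hsymx]
  · have h1 : (1 + E) * (Matrix.of fun j i => x i j) * Matrix.diagonal (fun i => lam i ^ k) =
        Matrix.diagonal (fun i => lam i ^ k) * (Matrix.of fun j i => x i j) *
          Matrix.diagonal (fun i => 1 + (E.mulVec (x i)) i) := by
      ext j i
      rw [Matrix.mul_diagonal, Matrix.mul_diagonal, Matrix.diagonal_mul, add_mul, one_mul,
        Matrix.add_apply, Matrix.of_apply]
      have h2 : (E * Matrix.of fun j i => x i j) j i = (E.mulVec (x i)) j := rfl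
      rw [h2, hxe i j]
      rw [div_pow]
      have h3 := pow_ne_zero k (hd.ne i)
      field_simp
    have h4 : toC v.1 * f.Q * (1 + E) = f.Q := by
      rw [hEd]
      have e1 : toC v.1 * f.Q * (1 + (f.R * toC (v⁻¹).1 * f.Q - 1)) =
          toC v.1 * (f.Q * f.R) * toC (v⁻¹).1 * f.Q := by
        rw [add_sub_cancel]
        simp only [mul_assoc]
      rw [e1, f.QR, mul_one, ← map_mul, ← Matrix.SpecialLinearGroup.coe_mul, mul_inv_cancel]
      have e2 : toC (1 : SLd d).1 = 1 := by
        rw [Matrix.SpecialLinearGroup.coe_one, map_one]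
      rw [e2, one_mul]
    change toC v.1 * f.Q * (Matrix.diagonal (fun i => lam i ^ k) * (Matrix.of fun j i => x i j) *
      Matrix.diagonal (fun i => 1 + (E.mulVec (x i)) i)) =
        f.Q * (Matrix.of fun j i => x i j) * Matrix.diagonal (fun i => lam i ^ k)
    rw [← h1, ← mul_assoc, ← mul_assoc, h4]

theorem mulVec_bd (E : Mc d) (x : Fin d → ℂ) :
    ‖E.mulVec x‖ ≤ (∑ a, ∑ b, ‖E a b‖) * ‖x‖ := by
  rw [pi_norm_le_iff_of_nonneg (by positivity)]
  intro i
  rw [Matrix.mulVec, dotProduct]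
  calc ‖∑ j, E i j * x j‖ ≤ ∑ j, ‖E i j * x j‖ := norm_sum_le _ _
    _ ≤ ∑ j, ‖E i j‖ * ‖x‖ := by
        refine Finset.sum_le_sum fun j _ => ?_
        rw [norm_mul]
        exact mul_le_mul_of_nonneg_left (norm_le_pi_norm x j) (norm_nonneg _)
    _ = (∑ j, ‖E i j‖) * ‖x‖ := by rw [Finset.sum_mul]
    _ ≤ _ := by
        refine mul_le_mul_of_nonneg_right ?_ (norm_nonneg _)
        exact Finset.single_le_sum (f := fun a => ∑ b, ‖E a b‖)
          (fun a _ => Finset.sum_nonneg fun b _ => norm_nonneg _) (Finset.mem_univ i)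

theorem toC_cont : Continuous (toC : Md d → Mc d) := by
  refine continuous_matrix fun i j => ?_
  have h1 : Continuous (fun A : Md d => A i j) := by fun_prop
  exact Complex.continuous_ofReal.comp h1

/-- The analytic part. -/
theorem conj_seq [NeZero d] (f : Frame d) {h : SLd d} {lam : Fin d → ℂ} (hd : Diag f h lam) {c : ℝ}
    (hc : 0 < c) (hc1 : c ≤ 1) (k : ℕ → ℕ) (hk : ∀ m, 1 ≤ k m)
    (hgap : ∀ m i j, j ≠ i → c ≤ ‖(lam j / lam i) ^ (k m) - 1‖) (v : ℕ → SLd d)
    (hv : Tendsto v atTop (𝓝 1)) :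
    ∃ (s : ℕ → V f.dim) (ξ : ℕ → SLd d), Tendsto s atTop (𝓝 0) ∧ Tendsto ξ atTop (𝓝 1) ∧
      ∀ᶠ m in atTop, v m * h ^ (k m) * ξ m = ξ m * (h * f.hom (s m)) ^ (k m) := by
  classical
  obtain ⟨E, hE⟩ : ∃ E : ℕ → Mc d, E = fun m => f.R * toC ((v m)⁻¹).1 * f.Q - 1 := ⟨_, rfl⟩
  obtain ⟨δ, hδ⟩ : ∃ δ : ℕ → ℝ, δ = fun m => ∑ a, ∑ b, ‖E m a b‖ := ⟨_, rfl⟩
  have hEt : Tendsto E atTop (𝓝 0) := by
    have h1 : Continuous (fun g : SLd d => f.R * toC (g⁻¹).1 * f.Q - 1) := by
      have h2 : Continuous (fun g : SLd d => (g⁻¹).1) := continuous_subtype_val.comp continuous_inv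
      have h3 : Continuous (fun g : SLd d => toC (g⁻¹).1) := toC_cont.comp h2
      exact ((continuous_const.matrix_mul h3).matrix_mul continuous_const).sub continuous_const
    have h4 := (h1.tendsto 1).comp hv
    have h5 : f.R * toC ((1 : SLd d)⁻¹).1 * f.Q - 1 = 0 := by
      rw [inv_one, Matrix.SpecialLinearGroup.coe_one, map_one, mul_one, f.RQ, sub_self]
    rw [h5] at h4
    rw [hE]
    exact h4
  have hδt : Tendsto δ atTop (𝓝 0) := by
    have h1 : Continuous (fun X : Mc d => ∑ a, ∑ b, ‖X a b‖) := by fun_prop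
    have h2 := (h1.tendsto 0).comp hEt
    have h3 : ∑ a, ∑ b, ‖(0 : Mc d) a b‖ = 0 := by simp
    rw [h3] at h2
    rw [hδ]
    exact h2
  have hδ0 : ∀ m, 0 ≤ δ m := by
    intro m
    rw [hδ]
    positivity
  have hδc : ∀ᶠ m in atTop, δ m ≤ c / 16 := hδt.eventually_le_const (by positivity)
  have hex : ∀ m, ∃ (X : Mc d) (ν : Fin d → ℂ), δ m ≤ c / 16 → (∀ i, X i i = 1) ∧
      (∀ i j, j ≠ i → ‖X j i‖ ≤ 4 * δ m / c) ∧
      (∀ i, ‖ν i - 1‖ ≤ δ m) ∧ (∀ i j, (starRingEnd ℂ) (X i j) = X (f.τ i) (f.τ j)) ∧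
      (∀ i, (starRingEnd ℂ) (ν i) = ν (f.τ i)) ∧
      toC (v m).1 * f.Q * (Matrix.diagonal (fun i => lam i ^ k m) * X * Matrix.diagonal ν) =
        f.Q * X * Matrix.diagonal (fun i => lam i ^ k m) := by
    intro m
    by_cases hm : δ m ≤ c / 16
    · obtain ⟨X, ν, h1⟩ := conj_one f hd hc hc1 hm (k m) (hgap m) (v m) (fun x => by
        have := mulVec_bd (E m) x
        rw [hδ]
        rw [hE] at this ⊢
        exact this)
      exact ⟨X, ν, fun _ => h1⟩
    · exact ⟨0, 0, fun h => absurd h hm⟩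
  choose X ν hXν using hex
  -- limits
  have hXt : Tendsto X atTop (𝓝 1) := by
    refine tendsto_pi_nhds.2 fun j => tendsto_pi_nhds.2 fun i => ?_
    by_cases hij : j = i
    · subst hij
      rw [Matrix.one_apply_eq]
      refine tendsto_const_nhds.congr' ?_
      filter_upwards [hδc] with m hm
      exact ((hXν m hm).1 j).symm
    · rw [Matrix.one_apply_ne hij]
      have h1 : Tendsto (fun m => 4 * δ m / c) atTop (𝓝 0) := by
        have := (hδt.const_mul 4).div_const c
        rwa [mul_zero, zero_div] at this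
      refine squeeze_zero_norm' ?_ h1
      filter_upwards [hδc] with m hm
      exact (hXν m hm).2.1 i j hij
  have hνt : ∀ i, Tendsto (fun m => ν m i) atTop (𝓝 1) := by
    intro i
    rw [tendsto_iff_norm_sub_tendsto_zero]
    refine squeeze_zero' (Eventually.of_forall fun m => norm_nonneg _) ?_ hδt
    filter_upwards [hδc] with m hm
    exact (hXν m hm).2.2.1 i
  -- the real matrices
  have hA : ∀ m, ∃ A : Md d, δ m ≤ c / 16 → toC A = f.Q * X m * f.R := by
    intro m
    by_cases hm : δ m ≤ c / 16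
    · obtain ⟨A, hA⟩ := f.real (hXν m hm).2.2.2.1
      exact ⟨A, fun _ => hA⟩
    · exact ⟨0, fun h => absurd h hm⟩
  choose A hA using hA
  have hAt : Tendsto A atTop (𝓝 1) := by
    have h1 : Tendsto (fun m => f.Q * X m * f.R) atTop (𝓝 1) := by
      have h2 : Continuous (fun Y : Mc d => f.Q * Y * f.R) :=
        (continuous_const.matrix_mul continuous_id).matrix_mul continuous_const
      have h3 := (h2.tendsto 1).comp hXt
      rwa [mul_one, f.QR] at h3
    refine tendsto_pi_nhds.2 fun i => tendsto_pi_nhds.2 fun j => ?_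
    have h4 : Continuous (fun Y : Mc d => (Y i j).re) := by fun_prop
    have h5 := (h4.tendsto 1).comp h1
    have h6 : ((1 : Mc d) i j).re = (1 : Md d) i j := by
      by_cases hij : i = j
      · subst hij
        rw [Matrix.one_apply_eq, Matrix.one_apply_eq, Complex.one_re]
      · rw [Matrix.one_apply_ne hij, Matrix.one_apply_ne hij, Complex.zero_re]
    rw [h6] at h5
    refine h5.congr' ?_
    filter_upwards [hδc] with m hm
    show ((f.Q * X m * f.R) i j).re = A m i j
    rw [← hA m hm, toC_apply, Complex.ofReal_re]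
  obtain ⟨hApos, hξt⟩ := nrm_tendsto hAt
  -- the logarithms
  have hlogt : ∀ i, Tendsto (fun m => Complex.log (ν m i)) atTop (𝓝 0) := by
    intro i
    have h1 : ContinuousAt Complex.log 1 := by
      apply continuousAt_clog
      exact Complex.one_mem_slitPlane
    have h2 := h1.tendsto.comp (hνt i)
    rwa [Complex.log_one] at h2
  obtain ⟨z, hz⟩ : ∃ z : ℕ → Fin d → ℂ, z = fun m i => -(Complex.log (ν m i)) / (k m : ℂ) := ⟨_, rfl⟩
  have hzt : Tendsto z atTop (𝓝 0) := by
    refine tendsto_pi_nhds.2 fun i => ?_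
    have h1 := (hlogt i).norm
    rw [norm_zero] at h1
    refine squeeze_zero_norm (fun m => ?_) h1
    rw [hz]
    simp only
    rw [norm_div, norm_neg]
    have h2 : (1 : ℝ) ≤ ‖(k m : ℂ)‖ := by
      rw [Complex.norm_natCast]
      exact_mod_cast hk m
    exact div_le_self (norm_nonneg _) h2
  have hsumt : Tendsto (fun m => ∑ i, Complex.log (ν m i)) atTop (𝓝 0) := by
    have h1 := tendsto_finsetSum (Finset.univ : Finset (Fin d)) (fun i _ => hlogt i)
    rwa [Finset.sum_const_zero] at h1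
  have hνslit : ∀ᶠ m in atTop, ∀ i, ν m i ∈ Complex.slitPlane := by
    refine eventually_all.2 fun i => ?_
    exact (hνt i).eventually (Complex.isOpen_slitPlane.mem_nhds Complex.one_mem_slitPlane)
  have hdetX : ∀ᶠ m in atTop, (X m).det ≠ 0 := by
    have h1 : Continuous (fun Y : Mc d => Y.det) := continuous_id.matrix_det
    have h2 := (h1.tendsto 1).comp hXt
    rw [Matrix.det_one] at h2
    exact h2.eventually_ne one_ne_zero
  have hzmem : ∀ᶠ m in atTop, z m ∈ f.lie := by
    have hsmall : ∀ᶠ m in atTop, ‖∑ i, Complex.log (ν m i)‖ < 1 := by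
      have h1 := hsumt.norm
      rw [norm_zero] at h1
      exact h1.eventually (gt_mem_nhds one_pos)
    filter_upwards [hδc, hνslit, hdetX, hsmall] with m hm hsl hdX hsm
    obtain ⟨-, -, -, -, g5, g6⟩ := hXν m hm
    refine ⟨fun i => ?_, ?_⟩
    · rw [hz]
      simp only
      rw [map_div₀, map_neg, ← g5, Complex.log_conj _ (Complex.mem_slitPlane_iff_arg.1 (hsl i)).1,
        Complex.conj_natCast]
    · have hprod : ∏ i, ν m i = 1 := by
        have h1 := congrArg Matrix.det g6
        rw [Matrix.det_mul, Matrix.det_mul, Matrix.det_mul, Matrix.det_mul, Matrix.det_mul,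
          Matrix.det_mul, toC_det, (v m).2, Matrix.det_diagonal, Matrix.det_diagonal] at h1
        have h2 : f.Q.det ≠ 0 := by
          intro h0
          have h3 := congrArg Matrix.det f.QR
          rw [Matrix.det_mul, h0, zero_mul, Matrix.det_one] at h3
          exact zero_ne_one h3
        have h3 : ∏ i, lam i ^ k m ≠ 0 :=
          Finset.prod_ne_zero_iff.2 fun i _ => pow_ne_zero _ (hd.ne i)
        have h4 : f.Q.det * (X m).det * ∏ i, lam i ^ k m ≠ 0 := mul_ne_zero (mul_ne_zero h2 hdX) h3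
        apply mul_left_cancel₀ h4
        rw [mul_one]
        rw [Complex.ofReal_one] at h1
        linear_combination h1
      have hne : ∀ i, ν m i ≠ 0 := fun i => Complex.slitPlane_ne_zero (hsl i)
      have hexp : Complex.exp (∑ i, Complex.log (ν m i)) = 1 := by
        rw [Complex.exp_sum, ← hprod]
        exact Finset.prod_congr rfl fun i _ => Complex.exp_log (hne i)
      have hsum0 : ∑ i, Complex.log (ν m i) = 0 := by
        obtain ⟨a, ha⟩ := Complex.exp_eq_one_iff.1 hexp
        have h5 : a = 0 := by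
          by_contra hne
          have h6 : (1 : ℝ) ≤ |(a : ℝ)| := by
            have : (1 : ℤ) ≤ |a| := Int.one_le_abs hne
            exact_mod_cast this
          rw [ha, norm_mul, norm_mul, norm_mul, Complex.norm_I, Complex.norm_real, mul_one,
            Complex.norm_intCast, Real.norm_eq_abs, abs_of_pos Real.pi_pos] at hsm
          have h7 : ‖(2 : ℂ)‖ = 2 := by norm_num
          rw [h7] at hsm
          have := Real.pi_gt_three
          nlinarith
        rw [ha, h5, Int.cast_zero, zero_mul]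
      rw [hz]
      simp only
      rw [← Finset.sum_div, Finset.sum_neg_distrib, hsum0, neg_zero, zero_div]
  obtain ⟨Z, hZ⟩ : ∃ Z : ℕ → f.lie, Z = fun m => if hm : z m ∈ f.lie then ⟨z m, hm⟩ else 0 :=
    ⟨_, rfl⟩
  have hZt : Tendsto Z atTop (𝓝 0) := by
    rw [tendsto_zero_iff_norm_tendsto_zero]
    have h1 := hzt.norm
    rw [norm_zero] at h1
    refine squeeze_zero (fun m => norm_nonneg _) (fun m => ?_) h1
    rw [hZ]
    simp only
    split_ifs with hm
    · exact le_rfl
    · rw [norm_zero]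
      exact norm_nonneg _
  refine ⟨fun m => f.co (Z m), fun m => nrm (A m), ?_, hξt, ?_⟩
  · have h1 := (f.co.continuous.tendsto 0).comp hZt
    rwa [map_zero] at h1
  · filter_upwards [hδc, hνslit, hzmem, hApos] with m hm hsl hzm hAp
    obtain ⟨-, -, -, -, -, g6⟩ := hXν m hm
    apply Subtype.ext
    apply toC_inj
    have hnrm : toC (nrm (A m)).1 = ((rt d (A m).det)⁻¹ : ℝ) • (f.Q * X m * f.R) := by
      rw [nrm_eq hAp, ← hA m hm]
      ext i j
      rw [toC_apply, Matrix.smul_apply, Matrix.smul_apply, toC_apply, smul_eq_mul,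
        Complex.real_smul]
      push_cast
      rfl
    have hZm : (Z m).1 = z m := by
      rw [hZ]
      simp only [dif_pos hzm]
    have hhom : toC (f.hom (f.co (Z m))).1 =
        f.Q * Matrix.diagonal (fun i => Complex.exp (z m i)) * f.R := by
      have h1 := f.tor_eq (Z m)
      rw [hZm] at h1
      rw [← h1]
      unfold Frame.hom
      rw [f.co.symm_apply_apply]
    have hne : ∀ i, ν m i ≠ 0 := fun i => Complex.slitPlane_ne_zero (hsl i)
    have hk0 : (k m : ℂ) ≠ 0 := by
      have := hk m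
      exact_mod_cast (by omega : k m ≠ 0)
    have hpow : toC ((h * f.hom (f.co (Z m))) ^ (k m)).1 =
        f.Q * (Matrix.diagonal (fun i => lam i ^ k m) * Matrix.diagonal (fun i => (ν m i)⁻¹)) *
          f.R := by
      rw [Matrix.SpecialLinearGroup.coe_pow, map_pow, Matrix.SpecialLinearGroup.coe_mul, map_mul,
        hhom, hd.eq']
      have e1 : f.Q * Matrix.diagonal lam * f.R *
          (f.Q * Matrix.diagonal (fun i => Complex.exp (z m i)) * f.R) =
          f.Q * (Matrix.diagonal (fun i => lam i * Complex.exp (z m i))) * f.R := by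
        have e2 : f.Q * Matrix.diagonal lam * f.R *
          (f.Q * Matrix.diagonal (fun i => Complex.exp (z m i)) * f.R) =
          f.Q * (Matrix.diagonal lam * (f.R * f.Q) *
            Matrix.diagonal (fun i => Complex.exp (z m i))) * f.R := by
          simp only [mul_assoc]
        rw [e2, f.RQ, mul_one, Matrix.diagonal_mul_diagonal]
      rw [e1, conj_pow, Matrix.diagonal_mul_diagonal]
      congr 3
      funext i
      rw [mul_pow, ← Complex.exp_nat_mul]
      congr 1
      have e3 : (k m : ℂ) * z m i = -Complex.log (ν m i) := by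
        rw [hz]
        simp only
        field_simp
      rw [e3, Complex.exp_neg, Complex.exp_log (hne i)]
    simp only [Matrix.SpecialLinearGroup.coe_mul, map_mul] at hpow ⊢
    rw [hpow, hd.pow, hnrm, mul_smul_comm, smul_mul_assoc]
    congr 1
    have hNN : Matrix.diagonal (ν m) * Matrix.diagonal (fun i => (ν m i)⁻¹) = 1 := by
      rw [Matrix.diagonal_mul_diagonal, ← Matrix.diagonal_one]
      congr 1
      funext i
      exact mul_inv_cancel₀ (hne i)
    have e1 : toC (v m).1 * (f.Q * Matrix.diagonal (fun i => lam i ^ k m) * f.R) *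
        (f.Q * X m * f.R) =
        toC (v m).1 * f.Q * (Matrix.diagonal (fun i => lam i ^ k m) * (f.R * f.Q) * X m) * f.R := by
      simp only [mul_assoc]
    have e2 : f.Q * X m * f.R *
        (f.Q * (Matrix.diagonal (fun i => lam i ^ k m) * Matrix.diagonal (fun i => (ν m i)⁻¹)) *
          f.R) =
        f.Q * X m * (f.R * f.Q) * Matrix.diagonal (fun i => lam i ^ k m) *
          Matrix.diagonal (fun i => (ν m i)⁻¹) * f.R := by
      simp only [mul_assoc]
    rw [e1, e2, f.RQ, mul_one, mul_one, ← g6]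
    have e3 : toC (v m).1 * f.Q * (Matrix.diagonal (fun i => lam i ^ k m) * X m *
        Matrix.diagonal (ν m)) * Matrix.diagonal (fun i => (ν m i)⁻¹) =
        toC (v m).1 * f.Q * (Matrix.diagonal (fun i => lam i ^ k m) * X m *
        (Matrix.diagonal (ν m) * Matrix.diagonal (fun i => (ν m i)⁻¹))) := by
      simp only [mul_assoc]
    rw [e3, hNN, mul_one]

end Pool.Agent.Y368.SLD
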