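import Pool.Agent.TH382.QC.Defs

/-!
# Periodic homogeneous submanifolds `SL(d, ℝ) / Γ`: definitions
-/

set_option autoImplicit false

open scoped Manifold ContDiff Topology
open Filter Set

universe u

namespace Pool.Agent.Y368.SLD

open Pool.Agent.H718R2.G Pool.Agent.TH382.QC

/-- `SL(d, ℝ)` -/
abbrev SLd (d : ℕ) := Matrix.SpecialLinearGroup (Fin d) ℝ

/-- real matrices -/
abbrev Md (d : ℕ) := Matrix (Fin d) (Fin d) ℝ

/-- `act` is a smooth action of the Lie group `SL(d, ℝ)` on the open subset `O` of the manifold `N`.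
Smoothness: for every family `c` of elements of `SL(d, ℝ)` whose entries depend smoothly on a parameter
`s ∈ ℝʲ`, the map `(s, y) ↦ c(s) y` is smooth. -/
structure IsSLdAction (d n : ℕ) (N : Type u) [TopologicalSpace N] [ChartedSpace (V n) N]
    (O : Set N) (act : SLd d → N → N) : Prop where
  isOpen : IsOpen O
  maps : ∀ g, ∀ y ∈ O, act g y ∈ O
  one : ∀ y ∈ O, act 1 y = y
  mul : ∀ g h, ∀ y ∈ O, act (g * h) y = act g (act h y)
  cont : ContinuousOn (fun p : SLd d × N => act p.1 p.2) (univ ×ˢ O)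
  smooth : ∀ (j : ℕ) (c : V j → SLd d), (∀ a b, ContDiff ℝ ∞ fun s => (c s).1 a b) →
    ContMDiffOn ((𝓡 j).prod (𝓡 n)) (𝓡 n) ∞ (fun p : V j × N => act (c p.1) p.2) (univ ×ˢ O)

/-- The stabiliser `Γ` of `y` is discrete and cocompact: only `1` fixes `y` in a neighbourhood of `1`,
and `SL(d, ℝ) y = K y` for some compact set `K`. So the orbit of `y` is `SL(d, ℝ) / Γ`, and compact. -/
def IsLatticePt {d : ℕ} {N : Type u} (act : SLd d → N → N) (y : N) : Prop :=
  (∃ W ∈ 𝓝 (1 : SLd d), ∀ g ∈ W, act g y = y → g = 1) ∧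
    ∃ K : Set (SLd d), IsCompact K ∧ ∀ g, ∃ k ∈ K, act g y = act k y

/-- `y` lies on a homogeneous periodic submanifold `C ≅ SL(d, ℝ) / Γ` of `F`: `SL(d, ℝ)` acts smoothly
on an open set `O` which contains `y`, with discrete and cocompact stabiliser `Γ` of `y`; the orbit
`C = SL(d, ℝ) y` is periodic with some period `m ≥ 1` (`F^i(C)` does not meet `C` for `1 ≤ i < m`), and
on `C` the map `F^m` is `g y ↦ h g k y` for some `h` and some `k` with `k^l ∈ Γ` for some `l ≥ 1` (a
translation if `k = 1`; in general, `g y ↦ g k y` is a map of finite order of `C` which commutes with the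
action). Nothing is required of `F` outside of `C, F(C), ..., F^(m-1)(C)`. -/
def IsSLdPer (d n : ℕ) (N : Type u) [TopologicalSpace N] [ChartedSpace (V n) N] (F : N → N)
    (y : N) : Prop :=
  ∃ (O : Set N) (act : SLd d → N → N), IsSLdAction d n N O act ∧ y ∈ O ∧ IsLatticePt act y ∧
    ∃ m : ℕ, 1 ≤ m ∧
      (∃ (h k : SLd d) (l : ℕ), 1 ≤ l ∧ act (k ^ l) y = y ∧
        ∀ g, F^[m] (act g y) = act (h * g * k) y) ∧
      ∀ i, 1 ≤ i → i < m → ∀ g g', F^[i] (act g y) ≠ act g' y

end Pool.Agent.Y368.SLD
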