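import Pool.Agent.Y368.SLD.DenseB

/-!
# From translations with a cyclic vector to regular translations
-/

set_option autoImplicit false
set_option linter.unusedSectionVars false

open scoped Topology ContDiff Manifold
open Filter Set Metric

universe u

namespace Pool.Agent.Y368.SLD

open Pool.Agent.H718R2.G

/-- the Krylov matrix -/
def kry {d : ℕ} {S : Type*} [CommRing S] (v : Fin d → S) (A : Matrix (Fin d) (Fin d) S) :
    Matrix (Fin d) (Fin d) S := Matrix.of fun i j => ((A ^ (j : ℕ)).mulVec v) i

section poly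

open Polynomial

/-- Distinct roots for small linear perturbations. -/
theorem nodup_ev (p : ℂ[X]) {d : ℕ} (hd : 2 ≤ d) (hp : p.Monic) (hdeg : p.natDegree = d) :
    ∀ᶠ s : ℝ in 𝓝[≠] (0 : ℝ), (p - C (s : ℂ) * X).roots.Nodup := by
  have hne : p - X * derivative p ≠ 0 := by
    intro h0
    have h1 := congrArg (fun q => q.coeff d) h0
    simp only [coeff_sub, coeff_zero] at h1
    obtain ⟨e, rfl⟩ : ∃ e, d = e + 1 := ⟨d - 1, by omega⟩
    rw [coeff_X_mul, coeff_derivative] at h1
    have h2 : p.coeff (e + 1) = 1 := by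
      rw [← hdeg]
      exact hp
    rw [h2] at h1
    have h3 : (e : ℂ) = 0 := by linear_combination -h1
    have h4 : e = 0 := by exact_mod_cast h3
    omega
  have hev : ∀ᶠ s : ℝ in 𝓝[≠] (0 : ℝ), ∀ α ∈ (p - X * derivative p).roots.toFinset,
      (s : ℂ) ≠ (derivative p).eval α := by
    rw [Filter.eventually_all_finset]
    intro α _
    by_cases h0 : (derivative p).eval α = 0
    · rw [h0]
      filter_upwards [self_mem_nhdsWithin] with s hs h
      exact hs (by exact_mod_cast h)
    · have h1 : Tendsto (fun s : ℝ => (s : ℂ)) (𝓝 0) (𝓝 0) := by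
        have := Complex.continuous_ofReal.tendsto 0
        rwa [Complex.ofReal_zero] at this
      exact (h1.mono_left nhdsWithin_le_nhds).eventually_ne (Ne.symm h0)
  have hs0 : ∀ s : ℝ, p - C (s : ℂ) * X ≠ 0 := by
    intro s h0
    have h1 := congrArg (fun q => q.coeff d) h0
    simp only [coeff_sub, coeff_zero] at h1
    obtain ⟨e, rfl⟩ : ∃ e, d = e + 2 := ⟨d - 2, by omega⟩
    have h2 : p.coeff (e + 2) = 1 := by
      rw [← hdeg]
      exact hp
    rw [h2, coeff_C_mul, coeff_X_of_ne_one (by omega), mul_zero, sub_zero] at h1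
    exact one_ne_zero h1
  filter_upwards [hev] with s hs
  rw [Multiset.nodup_iff_count_le_one]
  intro α
  rw [count_roots]
  by_contra hlt
  have h1 : 1 < (p - C (s : ℂ) * X).rootMultiplicity α := not_le.1 hlt
  rw [one_lt_rootMultiplicity_iff_isRoot (hs0 s)] at h1
  obtain ⟨h2, h3⟩ := h1
  simp only [IsRoot.def, eval_sub, eval_mul, eval_C, eval_X, derivative_sub, derivative_mul,
    derivative_C, derivative_X, zero_mul, zero_add, mul_one] at h2 h3
  have h4 : (s : ℂ) = (derivative p).eval α := by linear_combination -h3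
  refine hs α ?_ h4
  rw [Multiset.mem_toFinset, mem_roots hne, IsRoot.def, eval_sub, eval_mul, eval_X, ← h4]
  linear_combination h2

end poly

section enum

open Polynomial

/-- enumeration of the distinct roots of a real polynomial -/
theorem enum_roots {d : ℕ} (p : ℝ[X]) (hp : p.Monic) (hdeg : p.natDegree = d)
    (hnd : (p.map Complex.ofRealHom).roots.Nodup) :
    ∃ (lam : Fin d → ℂ) (τ : Equiv.Perm (Fin d)), Function.Injective lam ∧
      (∀ i, (p.map Complex.ofRealHom).eval (lam i) = 0) ∧ (∀ i, τ (τ i) = i) ∧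
      ∀ i, (starRingEnd ℂ) (lam i) = lam (τ i) := by
  classical
  obtain ⟨q, hq⟩ : ∃ q, q = p.map Complex.ofRealHom := ⟨_, rfl⟩
  rw [← hq] at hnd ⊢
  have hqm : q.Monic := by rw [hq]; exact hp.map _
  have hqd : q.natDegree = d := by rw [hq, hp.natDegree_map, hdeg]
  have hcard : q.roots.toFinset.card = d := by
    rw [Multiset.toFinset_card_of_nodup hnd]
    have := splits_iff_card_roots.1 (IsAlgClosed.splits q)
    rw [this, hqd]
  have e := Finset.equivFinOfCardEq hcard
  have hroot : ∀ i, q.eval ((e.symm i : q.roots.toFinset) : ℂ) = 0 := by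
    intro i
    have h1 := (e.symm i).2
    rw [Multiset.mem_toFinset, mem_roots hqm.ne_zero] at h1
    exact h1
  have hinj : Function.Injective (fun i : Fin d => ((e.symm i : q.roots.toFinset) : ℂ)) := by
    intro i j hij
    exact e.symm.injective (Subtype.ext hij)
  have hconj : ∀ i : Fin d, ∃ j : Fin d, (starRingEnd ℂ) ((e.symm i : q.roots.toFinset) : ℂ) =
      ((e.symm j : q.roots.toFinset) : ℂ) := by
    intro i
    have hev : ∀ w : ℂ, q.eval w = p.eval₂ Complex.ofRealHom w := by
      intro w
      rw [hq, eval_map]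
    have h1 : q.eval ((starRingEnd ℂ) ((e.symm i : q.roots.toFinset) : ℂ)) = 0 := by
      have h2 := congrArg (starRingEnd ℂ) (hroot i)
      rw [map_zero, hev, hom_eval₂] at h2
      rw [hev]
      have h3 : (starRingEnd ℂ).comp Complex.ofRealHom = Complex.ofRealHom := by
        ext x
        exact Complex.conj_ofReal x
      rw [h3] at h2
      exact h2
    have h2 : (starRingEnd ℂ) ((e.symm i : q.roots.toFinset) : ℂ) ∈ q.roots.toFinset := by
      rw [Multiset.mem_toFinset, mem_roots hqm.ne_zero]
      exact h1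
    refine ⟨e ⟨_, h2⟩, ?_⟩
    rw [e.symm_apply_apply]
  choose τ hτ using hconj
  have hinv : Function.Involutive τ := by
    intro i
    apply hinj
    show ((e.symm (τ (τ i)) : q.roots.toFinset) : ℂ) = _
    rw [← hτ, ← hτ, Complex.conj_conj]
  exact ⟨_, hinv.toPerm, hinj, hroot, hinv, hτ⟩

end enum

variable {d : ℕ} [NeZero d]

/-- conjugation -/
def cjg (C D : Md d) (h : C * D = 1) (g : SLd d) : SLd d :=
  ⟨C * g.1 * D, by
    rw [Matrix.det_mul, Matrix.det_mul, g.2, mul_one, ← Matrix.det_mul, h, Matrix.det_one]⟩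

open Polynomial in
/-- the real polynomial of a companion matrix with last column `k` -/
noncomputable def cpol (k : Fin d → ℝ) : ℝ[X] := X ^ d - ∑ i : Fin d, C (k i) * X ^ (i : ℕ)

open Polynomial in
theorem cpol_monic (k : Fin d → ℝ) : (cpol k).Monic ∧ (cpol k).natDegree = d := by
  have h1 : (∑ i : Fin d, C (k i) * X ^ (i : ℕ)).degree < (d : WithBot ℕ) := degree_sum_fin_lt _
  have h2 : (cpol k).Monic := monic_X_pow_sub (by
    exact h1)
  refine ⟨h2, ?_⟩
  unfold cpol
  rw [natDegree_sub_eq_left_of_natDegree_lt, natDegree_X_pow]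
  rw [natDegree_X_pow]
  by_cases h0 : (∑ i : Fin d, C (k i) * X ^ (i : ℕ)) = 0
  · rw [h0, natDegree_zero]
    exact Nat.pos_of_ne_zero (NeZero.ne d)
  · exact (natDegree_lt_iff_degree_lt h0).2 h1

theorem exists_regular (hd2 : 2 ≤ d) {h : SLd d} {v : Fin d → ℝ} (hv : (kry v h.1).det ≠ 0) :
    ∃ c : V 1 → SLd d, IsHomFam c ∧ ∃ᶠ t in 𝓝 (0 : V 1), ∃ (f : Frame d) (lam : Fin d → ℂ),
      Diag f (h * c t) lam ∧ ∀ i j, lam i = lam j → i = j := by
  classical
  obtain ⟨C, hC⟩ : ∃ C : Md d, C = kry v h.1 := ⟨_, rfl⟩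
  rw [← hC] at hv
  have hu : IsUnit C.det := isUnit_iff_ne_zero.2 hv
  obtain ⟨D, hD⟩ : ∃ D : Md d, D = C⁻¹ := ⟨_, rfl⟩
  have hCD : C * D = 1 := by rw [hD]; exact Matrix.mul_nonsing_inv _ hu
  have hDC : D * C = 1 := by rw [hD]; exact Matrix.nonsing_inv_mul _ hu
  have hd0 : 0 < d := by omega
  obtain ⟨la, hla⟩ : ∃ la : Fin d, la = ⟨d - 1, by omega⟩ := ⟨_, rfl⟩
  obtain ⟨ze, hze⟩ : ∃ ze : Fin d, ze = ⟨0, by omega⟩ := ⟨_, rfl⟩
  obtain ⟨on, hon⟩ : ∃ on : Fin d, on = ⟨1, by omega⟩ := ⟨_, rfl⟩
  have hzl : ze ≠ la := by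
    rw [hze, hla]
    intro h1
    have := congrArg Fin.val h1
    simp only at this
    omega
  -- the companion matrix
  obtain ⟨K, hK⟩ : ∃ K : Md d, K = D * h.1 * C := ⟨_, rfl⟩
  have hhC : h.1 * C = C * K := by
    rw [hK, ← mul_assoc, ← mul_assoc, hCD, one_mul]
  have hKcol : ∀ (i j : Fin d) (hj : (j : ℕ) + 1 < d), K i j = (1 : Md d) i ⟨(j : ℕ) + 1, hj⟩ := by
    intro i j hj
    have h1 : ∀ l, (h.1 * C) l j = C l ⟨(j : ℕ) + 1, hj⟩ := by
      intro l
      rw [hC]
      show ∑ a, h.1 l a * ((h.1 ^ (j : ℕ)).mulVec v) a = ((h.1 ^ ((j : ℕ) + 1)).mulVec v) l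
      rw [pow_succ', ← Matrix.mulVec_mulVec]
      rfl
    have h2 : K i j = (D * (h.1 * C)) i j := by rw [hK, mul_assoc]
    have h3 : (D * (h.1 * C)) i j = (D * C) i ⟨(j : ℕ) + 1, hj⟩ := by
      rw [Matrix.mul_apply, Matrix.mul_apply]
      exact Finset.sum_congr rfl fun l _ => by rw [h1]
    rw [h2, h3, hDC]
  -- the family
  refine ⟨fun t => cjg C D hCD (El hzl (t 0)), ⟨fun a b => ?_, fun s t => ?_⟩, ?_⟩
  · have h1 : ∀ t : V 1, (cjg C D hCD (El hzl (t 0))).1 a b =
        (C * D) a b + t 0 * (C a ze * D la b) := by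
      intro t
      show (C * (El hzl (t 0)).1 * D) a b = _
      rw [el_coe, mul_add, add_mul, mul_one, Matrix.add_apply]
      congr 1
      rw [Matrix.mul_apply]
      rw [Finset.sum_eq_single la]
      · rw [Matrix.mul_apply, Finset.sum_eq_single ze]
        · rw [Matrix.single_apply_same]
          ring
        · intro x _ hx
          rw [Matrix.single_apply_of_row_ne (Ne.symm hx), mul_zero]
        · intro hx
          exact absurd (Finset.mem_univ _) hx
      · intro x _ hx
        have : (C * Matrix.single ze la (t 0)) a x = 0 := by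
          rw [Matrix.mul_apply]
          refine Finset.sum_eq_zero fun l _ => ?_
          rw [Matrix.single_apply_of_col_ne _ _ (Ne.symm hx), mul_zero]
        rw [this, zero_mul]
      · intro hx
        exact absurd (Finset.mem_univ _) hx
    have h2 : (fun t : V 1 => (cjg C D hCD (El hzl (t 0))).1 a b) =
        fun t : V 1 => (C * D) a b + t 0 * (C a ze * D la b) := funext h1
    rw [h2]
    fun_prop
  · apply Subtype.ext
    show C * (El hzl ((s + t) 0)).1 * D = (C * (El hzl (s 0)).1 * D) * (C * (El hzl (t 0)).1 * D)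
    have h1 : (El hzl ((s + t) 0)) = El hzl (s 0) * El hzl (t 0) :=
      Matrix.SpecialLinearGroup.transvection_add hzl (s 0) (t 0)
    rw [h1, Matrix.SpecialLinearGroup.coe_mul]
    have h2 : (C * (El hzl (s 0)).1 * D) * (C * (El hzl (t 0)).1 * D) =
        C * (El hzl (s 0)).1 * (D * C) * (El hzl (t 0)).1 * D := by simp only [mul_assoc]
    rw [h2, hDC, mul_one]
    simp only [mul_assoc]
  -- the roots
  obtain ⟨k, hk⟩ : ∃ k : Fin d → ℝ, k = fun i => K i la := ⟨_, rfl⟩
  obtain ⟨hpm, hpd⟩ := cpol_monic k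
  have hev := nodup_ev ((cpol k).map Complex.ofRealHom) hd2 (hpm.map _)
    (by rw [hpm.natDegree_map, hpd])
  obtain ⟨s, hst, hs⟩ := exists_seq_forall_of_frequently hev.frequently
  have hst' : Tendsto s atTop (𝓝 0) := hst.mono_right nhdsWithin_le_nhds
  have htt : Tendsto (fun m => s m • EuclideanSpace.single (0 : Fin 1) (1 : ℝ)) atTop
      (𝓝 (0 : V 1)) := by
    have h1 := hst'.smul_const (EuclideanSpace.single (0 : Fin 1) (1 : ℝ) : V 1)
    rwa [zero_smul] at h1
  refine htt.frequently (Eventually.frequently (Eventually.of_forall fun m => ?_))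
  have ht0 : (s m • EuclideanSpace.single (0 : Fin 1) (1 : ℝ) : V 1) 0 = s m := by simp
  -- the perturbed polynomial
  obtain ⟨k', hk'⟩ : ∃ k' : Fin d → ℝ, k' = fun i => k i + (if i = on then s m else 0) := ⟨_, rfl⟩
  obtain ⟨hqm, hqd⟩ := cpol_monic k'
  have hpq : (cpol k').map Complex.ofRealHom =
      (cpol k).map Complex.ofRealHom - Polynomial.C (s m : ℂ) * Polynomial.X := by
    have h1 : cpol k' = cpol k - Polynomial.C (s m) * Polynomial.X := by
      unfold cpol
      rw [hk']
      simp only [map_add, add_mul, Finset.sum_add_distrib]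
      have h2 : ∑ i : Fin d, Polynomial.C (if i = on then s m else 0) * Polynomial.X ^ (i : ℕ) =
          Polynomial.C (s m) * Polynomial.X := by
        rw [Finset.sum_eq_single on]
        · rw [if_pos rfl, hon]
          simp only
          rw [pow_one]
        · intro b _ hb
          rw [if_neg hb, map_zero, zero_mul]
        · intro hx
          exact absurd (Finset.mem_univ _) hx
      rw [h2]
      ring
    rw [h1, Polynomial.map_sub, Polynomial.map_mul, Polynomial.map_C, Polynomial.map_X]
    rfl
  have hnd : ((cpol k').map Complex.ofRealHom).roots.Nodup := by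
    rw [hpq]
    exact hs m
  obtain ⟨lam, τ, hinj, hroot, hτ, hconj⟩ := enum_roots (cpol k') hqm hqd hnd
  -- the eigenvector equation
  obtain ⟨K', hK'⟩ : ∃ K' : Md d, K' = K * (El hzl (s m)).1 := ⟨_, rfl⟩
  have hK'col : ∀ (i j : Fin d) (hj : (j : ℕ) + 1 < d), K' i j = (1 : Md d) i ⟨(j : ℕ) + 1, hj⟩ := by
    intro i j hj
    have hjl : j ≠ la := by
      intro h1
      rw [h1, hla] at hj
      simp only at hj
      omega
    rw [hK', el_coe, mul_add, mul_one, Matrix.add_apply, hKcol i j hj]
    have : (K * Matrix.single ze la (s m)) i j = 0 := by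
      rw [Matrix.mul_apply]
      refine Finset.sum_eq_zero fun l _ => ?_
      rw [Matrix.single_apply_of_col_ne _ _ (Ne.symm hjl), mul_zero]
    rw [this, add_zero]
  have hK'la : ∀ i, K' i la = k' i := by
    intro i
    rw [hK', el_coe, mul_add, mul_one, Matrix.add_apply, hk', hk]
    simp only
    congr 1
    rw [Matrix.mul_apply, Finset.sum_eq_single ze]
    · rw [Matrix.single_apply_same, hKcol i ze (by rw [hze]; simp only; omega)]
      have h1 : (⟨(ze : ℕ) + 1, by rw [hze]; simp only; omega⟩ : Fin d) = on := by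
        rw [hon]
        apply Fin.ext
        simp only [hze]
      rw [h1, Matrix.one_apply]
      split_ifs <;> simp
    · intro x _ hx
      rw [Matrix.single_apply_of_row_ne (Ne.symm hx), mul_zero]
    · intro hx
      exact absurd (Finset.mem_univ _) hx
  have hW : Matrix.vandermonde lam * toC K' = Matrix.diagonal lam * Matrix.vandermonde lam := by
    ext i j
    rw [Matrix.diagonal_mul, Matrix.mul_apply, Matrix.vandermonde_apply]
    by_cases hj : (j : ℕ) + 1 < d
    · rw [Finset.sum_eq_single (⟨(j : ℕ) + 1, hj⟩ : Fin d)]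
      · rw [toC_apply, hK'col _ j hj, Matrix.one_apply_eq, Matrix.vandermonde_apply,
          Complex.ofReal_one, mul_one]
        simp only
        rw [pow_succ']
      · intro b _ hb
        rw [toC_apply, hK'col _ j hj, Matrix.one_apply_ne hb, Complex.ofReal_zero, mul_zero]
      · intro hx
        exact absurd (Finset.mem_univ _) hx
    · have hjla : j = la := by
        rw [hla]
        apply Fin.ext
        simp only
        have := j.2
        omega
      have h1 := hroot i
      unfold cpol at h1
      rw [Polynomial.eval_map, Polynomial.eval₂_sub, Polynomial.eval₂_pow, Polynomial.eval₂_X,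
        Polynomial.eval₂_finsetSum] at h1
      simp only [Polynomial.eval₂_mul, Polynomial.eval₂_C, Polynomial.eval₂_pow,
        Polynomial.eval₂_X] at h1
      have h2 : lam i * lam i ^ (j : ℕ) = lam i ^ d := by
        rw [← pow_succ']
        congr 1
        have := j.2
        omega
      rw [h2]
      rw [sub_eq_zero] at h1
      rw [h1]
      refine Finset.sum_congr rfl fun l _ => ?_
      rw [toC_apply, hjla, hK'la, Matrix.vandermonde_apply, mul_comm]
      rfl
  -- the frame
  have hWdet : (Matrix.vandermonde lam).det ≠ 0 := Matrix.det_vandermonde_ne_zero_iff.2 hinj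
  have hWu : IsUnit (Matrix.vandermonde lam).det := isUnit_iff_ne_zero.2 hWdet
  have hcd : toC C * toC D = 1 := by rw [← map_mul, hCD, map_one]
  have hdc : toC D * toC C = 1 := by rw [← map_mul, hDC, map_one]
  let f : Frame d :=
    { R := Matrix.vandermonde lam * toC D
      Q := toC C * (Matrix.vandermonde lam)⁻¹
      τ := τ
      RQ := by
        have e1 : Matrix.vandermonde lam * toC D * (toC C * (Matrix.vandermonde lam)⁻¹) =
            Matrix.vandermonde lam * (toC D * toC C) * (Matrix.vandermonde lam)⁻¹ := by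
          simp only [mul_assoc]
        rw [e1, hdc, mul_one, Matrix.mul_nonsing_inv _ hWu]
      QR := by
        have e1 : toC C * (Matrix.vandermonde lam)⁻¹ * (Matrix.vandermonde lam * toC D) =
            toC C * ((Matrix.vandermonde lam)⁻¹ * Matrix.vandermonde lam) * toC D := by
          simp only [mul_assoc]
        rw [e1, Matrix.nonsing_inv_mul _ hWu, mul_one, hcd]
      inv := hτ
      conj := by
        intro i j
        rw [Matrix.mul_apply, Matrix.mul_apply, map_sum]
        refine Finset.sum_congr rfl fun l _ => ?_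
        rw [map_mul, toC_apply, Complex.conj_ofReal, Matrix.vandermonde_apply,
          Matrix.vandermonde_apply, map_pow, hconj] }
  refine ⟨f, lam, ⟨?_, hconj, ?_⟩, fun i j hij => hinj hij⟩
  · -- nonzero
    have h1 : toC (h * cjg C D hCD (El hzl (s m))).1 = toC C * toC K' * toC D := by
      rw [← map_mul, ← map_mul, Matrix.SpecialLinearGroup.coe_mul]
      congr 1
      show h.1 * (C * (El hzl (s m)).1 * D) = C * K' * D
      rw [hK', ← mul_assoc, ← mul_assoc, hhC]
      simp only [mul_assoc]
    have h2 : (Matrix.vandermonde lam).det * (toC K').det =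
        (∏ i, lam i) * (Matrix.vandermonde lam).det := by
      rw [← Matrix.det_mul, hW, Matrix.det_mul, Matrix.det_diagonal]
    have h3 : (toC K').det = 1 := by
      rw [toC_det, hK', Matrix.det_mul, (El hzl (s m)).2, mul_one, hK, Matrix.det_mul,
        Matrix.det_mul, h.2, mul_one, ← Matrix.det_mul, hDC, Matrix.det_one, Complex.ofReal_one]
    have h4 : ∏ i, lam i = 1 := by
      rw [h3, mul_one] at h2
      exact mul_right_cancel₀ hWdet (by rw [one_mul]; exact h2.symm)
    intro i h0
    rw [Finset.prod_eq_zero (Finset.mem_univ i) h0] at h4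
    exact zero_ne_one h4
  · show Matrix.vandermonde lam * toC D * toC (h * cjg C D hCD (El hzl
      ((s m • EuclideanSpace.single (0 : Fin 1) (1 : ℝ) : V 1) 0))).1 =
      Matrix.diagonal lam * (Matrix.vandermonde lam * toC D)
    rw [ht0]
    have h1 : toC (h * cjg C D hCD (El hzl (s m))).1 = toC C * toC K' * toC D := by
      rw [← map_mul, ← map_mul, Matrix.SpecialLinearGroup.coe_mul]
      congr 1
      show h.1 * (C * (El hzl (s m)).1 * D) = C * K' * D
      rw [hK', ← mul_assoc, ← mul_assoc, hhC]
      simp only [mul_assoc]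
    rw [h1]
    have e1 : Matrix.vandermonde lam * toC D * (toC C * toC K' * toC D) =
        Matrix.vandermonde lam * (toC D * toC C) * toC K' * toC D := by simp only [mul_assoc]
    rw [e1, hdc, mul_one, hW, mul_assoc]

end Pool.Agent.Y368.SLD
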