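import Pool.Agent.Y368.SLD.Nice

/-!
# Nice translations are dense in the torus of a regular element
-/

set_option autoImplicit false
set_option linter.unusedSectionVars false

open scoped Topology ContDiff Manifold
open Filter Set Metric

universe u

namespace Pool.Agent.Y368.SLD

open Pool.Agent.H718R2.G

/-- rounding of a nonnegative angle -/
noncomputable def rnd0 (Q : ℕ) (x : ℝ) : ℤ := ⌊(Q : ℝ) * x / (2 * Real.pi)⌋

/-- rounding of an angle -/
noncomputable def rnd (Q : ℕ) (x : ℝ) : ℤ := if 0 ≤ x then rnd0 Q x else -rnd0 Q (-x)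

/-- the correction -/
noncomputable def cor (Q : ℕ) (x : ℝ) : ℝ := 2 * Real.pi * rnd Q x / Q - x

theorem cor_bd {Q : ℕ} (hQ : 1 ≤ Q) (x : ℝ) : |cor Q x| ≤ 2 * Real.pi / Q := by
  have hπ := Real.pi_pos
  have hQ0 : (0 : ℝ) < Q := by exact_mod_cast hQ
  have key : ∀ x : ℝ, |2 * Real.pi * rnd0 Q x / Q - x| ≤ 2 * Real.pi / Q := by
    intro x
    have h1 := Int.floor_le ((Q : ℝ) * x / (2 * Real.pi))
    have h2 := Int.lt_floor_add_one ((Q : ℝ) * x / (2 * Real.pi))
    have h3 : (rnd0 Q x : ℝ) ≤ (Q : ℝ) * x / (2 * Real.pi) := h1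
    have h4 : (Q : ℝ) * x / (2 * Real.pi) < (rnd0 Q x : ℝ) + 1 := h2
    rw [le_div_iff₀ (by positivity)] at h3
    rw [div_lt_iff₀ (by positivity)] at h4
    rw [abs_le]
    constructor
    · have : x ≤ 2 * Real.pi * rnd0 Q x / Q + 2 * Real.pi / Q := by
        rw [← add_div, le_div_iff₀ hQ0]
        linarith
      linarith
    · have : 2 * Real.pi * rnd0 Q x / Q ≤ x := by
        rw [div_le_iff₀ hQ0]
        linarith
      have : 0 ≤ 2 * Real.pi / Q := by positivity
      linarith
  unfold cor rnd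
  split_ifs with h
  · exact key x
  · have h1 := key (-x)
    have e : 2 * Real.pi * ((-rnd0 Q (-x) : ℤ) : ℝ) / Q - x =
        -(2 * Real.pi * (rnd0 Q (-x) : ℝ) / Q - -x) := by
      push_cast
      ring
    rw [e, abs_neg]
    exact h1

theorem cor_zero (Q : ℕ) : cor Q 0 = 0 := by
  unfold cor rnd rnd0
  simp

theorem cor_neg {Q : ℕ} (x : ℝ) : cor Q (-x) = -cor Q x := by
  rcases lt_trichotomy x 0 with h | h | h
  · unfold cor rnd
    rw [if_pos (by linarith), if_neg (not_le.2 h)]
    push_cast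
    ring
  · rw [h, neg_zero, cor_zero, neg_zero]
  · unfold cor rnd
    rw [if_neg (by linarith), if_pos h.le, neg_neg]
    push_cast
    ring

theorem cor_pi (a : ℕ) (ha : 1 ≤ a) : cor (2 * a) Real.pi = 0 := by
  have hπ := Real.pi_pos
  have ha0 : (0 : ℝ) < a := by exact_mod_cast ha
  unfold cor rnd rnd0
  rw [if_pos hπ.le]
  have e : ((2 * a : ℕ) : ℝ) * Real.pi / (2 * Real.pi) = (a : ℕ) := by
    push_cast
    field_simp
  rw [e, Int.floor_natCast]
  push_cast
  field_simp
  ring

theorem cor_conj (a : ℕ) (ha : 1 ≤ a) (w : ℂ) :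
    cor (2 * a) (Complex.arg ((starRingEnd ℂ) w)) = -cor (2 * a) (Complex.arg w) := by
  rw [Complex.arg_conj]
  split_ifs with h
  · rw [h, cor_pi a ha, neg_zero]
  · exact cor_neg _

variable {d : ℕ} [NeZero d]

/-- weights -/
noncomputable def wt (f : Frame d) (i : Fin d) : ℝ :=
  (((min i (f.τ i) : Fin d) : ℕ) : ℝ) - (∑ j, (((min j (f.τ j) : Fin d) : ℕ) : ℝ)) / d

theorem wt_tau (f : Frame d) (i : Fin d) : wt f (f.τ i) = wt f i := by
  unfold wt
  rw [f.inv, min_comm]

theorem wt_sum (f : Frame d) : ∑ i, wt f i = 0 := by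
  unfold wt
  rw [Finset.sum_sub_distrib, Finset.sum_const, Finset.card_univ, Fintype.card_fin, nsmul_eq_mul,
    mul_div_cancel₀ _ (by exact_mod_cast NeZero.ne d), sub_self]

theorem wt_inj (f : Frame d) {i j : Fin d} (h : wt f i = wt f j) : j = i ∨ j = f.τ i := by
  unfold wt at h
  have h1 : (((min i (f.τ i) : Fin d) : ℕ) : ℝ) = (((min j (f.τ j) : Fin d) : ℕ) : ℝ) := by linarith
  have h2 : min i (f.τ i) = min j (f.τ j) := Fin.ext (by exact_mod_cast h1)
  rcases min_choice i (f.τ i) with h3 | h3 <;> rcases min_choice j (f.τ j) with h4 | h4 <;>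
    rw [h3, h4] at h2
  · exact Or.inl h2.symm
  · right
    rw [h2, f.inv]
  · exact Or.inr h2.symm
  · left
    exact (f.τ.injective h2).symm

theorem exists_nice (f : Frame d) {h : SLd d} {lam : Fin d → ℂ} (hd : Diag f h lam)
    (hinj : ∀ i j, lam i = lam j → i = j) :
    ∃ᶠ t in 𝓝 (0 : V f.dim), ∃ (lam' : Fin d → ℂ) (q : ℕ), Nice f (h * f.hom t) lam' q := by
  -- generic small numbers
  have hgen : ∀ᶠ e in 𝓝[≠] (0 : ℝ), ∀ i j, j ≠ i → j ≠ f.τ i →
      ‖lam i‖ * Real.exp (e * wt f i) ≠ ‖lam j‖ * Real.exp (e * wt f j) := by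
    refine eventually_all.2 fun i => eventually_all.2 fun j => ?_
    by_cases hij : j = i ∨ j = f.τ i
    · refine Eventually.of_forall fun e h1 h2 => ?_
      rcases hij with h3 | h3
      · exact absurd h3 h1
      · exact absurd h3 h2
    · have hw : wt f j - wt f i ≠ 0 := by
        intro h0
        exact hij (wt_inj f (by linarith))
      obtain ⟨c, hc⟩ : ∃ c : ℝ, c = (Real.log ‖lam i‖ - Real.log ‖lam j‖) / (wt f j - wt f i) :=
        ⟨_, rfl⟩
      have hev : ∀ᶠ e in 𝓝[≠] (0 : ℝ), e ≠ c := by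
        by_cases hc0 : c = 0
        · rw [hc0]
          exact self_mem_nhdsWithin
        · exact mem_nhdsWithin_of_mem_nhds (isOpen_ne.mem_nhds (Ne.symm hc0))
      filter_upwards [hev] with e he _ _ heq
      apply he
      have hi0 : ‖lam i‖ ≠ 0 := (norm_pos_iff.2 (hd.ne i)).ne'
      have hj0 : ‖lam j‖ ≠ 0 := (norm_pos_iff.2 (hd.ne j)).ne'
      have h1 := congrArg Real.log heq
      rw [Real.log_mul hi0 (Real.exp_pos _).ne', Real.log_mul hj0 (Real.exp_pos _).ne',
        Real.log_exp, Real.log_exp] at h1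
      rw [hc, eq_div_iff hw]
      linarith
  obtain ⟨e, het, he⟩ := exists_seq_forall_of_frequently hgen.frequently
  have het' : Tendsto e atTop (𝓝 0) := het.mono_right nhdsWithin_le_nhds
  obtain ⟨Q, hQ⟩ : ∃ Q : ℕ → ℕ, Q = fun m => 2 * (m + 1) := ⟨_, rfl⟩
  have hQ1 : ∀ m, 1 ≤ Q m := fun m => by rw [hQ]; simp only; omega
  obtain ⟨z, hz⟩ : ∃ z : ℕ → Fin d → ℂ, z = fun m i =>
    ((e m * wt f i : ℝ) : ℂ) + ((cor (Q m) (Complex.arg (lam i)) : ℝ) : ℂ) * Complex.I := ⟨_, rfl⟩
  have hcorτ : ∀ m i, cor (Q m) (Complex.arg (lam (f.τ i))) = -cor (Q m) (Complex.arg (lam i)) := by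
    intro m i
    rw [← hd.conj, hQ]
    exact cor_conj (m + 1) (by omega) _
  have hzmem : ∀ m, z m ∈ f.lie := by
    intro m
    refine ⟨fun i => ?_, ?_⟩
    · rw [hz]
      simp only [map_add, map_mul, Complex.conj_ofReal, Complex.conj_I]
      rw [wt_tau, hcorτ]
      push_cast
      ring
    · rw [hz]
      simp only
      rw [Finset.sum_add_distrib, ← Complex.ofReal_sum, ← Finset.mul_sum, wt_sum, mul_zero,
        ← Finset.sum_mul, ← Complex.ofReal_sum]
      have h1 : ∑ i, cor (Q m) (Complex.arg (lam i)) = 0 := by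
        have h2 := Equiv.sum_comp f.τ (fun i => cor (Q m) (Complex.arg (lam i)))
        simp only [hcorτ, Finset.sum_neg_distrib] at h2
        linarith
      rw [h1]
      simp
  have hzt : Tendsto z atTop (𝓝 0) := by
    refine tendsto_pi_nhds.2 fun i => ?_
    have h1 : Tendsto (fun m => e m * wt f i) atTop (𝓝 0) := by
      have := het'.mul_const (wt f i)
      rwa [zero_mul] at this
    have h2 : Tendsto (fun m => cor (Q m) (Complex.arg (lam i))) atTop (𝓝 0) := by
      have h3 : Tendsto (fun m : ℕ => 2 * Real.pi / (Q m : ℝ)) atTop (𝓝 0) := by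
        have h4 : Tendsto (fun m : ℕ => (Q m : ℝ)) atTop atTop := by
          rw [hQ]
          refine tendsto_atTop_mono (fun m => ?_) tendsto_natCast_atTop_atTop
          push_cast
          linarith
        exact h4.const_div_atTop _
      refine squeeze_zero_norm (fun m => ?_) h3
      rw [Real.norm_eq_abs]
      exact cor_bd (hQ1 m) _
    have h5 : Tendsto (fun m => ((e m * wt f i : ℝ) : ℂ) +
        ((cor (Q m) (Complex.arg (lam i)) : ℝ) : ℂ) * Complex.I) atTop
        (𝓝 (((0 : ℝ) : ℂ) + ((0 : ℝ) : ℂ) * Complex.I)) :=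
      ((Complex.continuous_ofReal.tendsto 0).comp h1).add
        (((Complex.continuous_ofReal.tendsto 0).comp h2).mul_const _)
    have h6 : (((0 : ℝ) : ℂ) + ((0 : ℝ) : ℂ) * Complex.I) = 0 := by simp
    rw [h6] at h5
    rw [hz]
    exact h5
  have hZt : Tendsto (fun m => (⟨z m, hzmem m⟩ : f.lie)) atTop (𝓝 0) := by
    rw [tendsto_zero_iff_norm_tendsto_zero]
    have h1 := hzt.norm
    rw [norm_zero] at h1
    exact h1
  have hst : Tendsto (fun m => f.co (⟨z m, hzmem m⟩ : f.lie)) atTop (𝓝 0) := by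
    have h1 := (f.co.continuous.tendsto 0).comp hZt
    rwa [map_zero] at h1
  refine hst.frequently (Eventually.frequently ?_)
  -- the new eigenvalues
  obtain ⟨lam', hlam'⟩ : ∃ lam' : ℕ → Fin d → ℂ, lam' = fun m i => lam i * Complex.exp (z m i) :=
    ⟨_, rfl⟩
  have hlt : ∀ i, Tendsto (fun m => lam' m i) atTop (𝓝 (lam i)) := by
    intro i
    have h1 : Tendsto (fun m => z m i) atTop (𝓝 0) := tendsto_pi_nhds.1 hzt i
    have h2 := ((Complex.continuous_exp.tendsto 0).comp h1).const_mul (lam i)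
    rw [Complex.exp_zero, mul_one] at h2
    rw [hlam']
    exact h2
  have hnorm : ∀ m i, ‖lam' m i‖ = ‖lam i‖ * Real.exp (e m * wt f i) := by
    intro m i
    rw [hlam']
    simp only
    rw [norm_mul, Complex.norm_exp, hz]
    simp only
    congr 2
    rw [Complex.add_re, Complex.ofReal_re, Complex.re_ofReal_mul, Complex.I_re, mul_zero, add_zero]
  have hev : ∀ᶠ m in atTop, ∀ i j, i ≠ j → lam' m i ≠ lam' m j := by
    refine eventually_all.2 fun i => eventually_all.2 fun j => ?_
    by_cases hij : i = j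
    · exact Eventually.of_forall fun m h => absurd hij h
    · have h1 : Tendsto (fun m => lam' m i - lam' m j) atTop (𝓝 (lam i - lam j)) :=
        (hlt i).sub (hlt j)
      have h2 : lam i - lam j ≠ 0 := sub_ne_zero.2 fun h => hij (hinj _ _ h)
      filter_upwards [h1.eventually_ne h2] with m hm _ heq
      exact hm (sub_eq_zero.2 heq)
  filter_upwards [hev] with m hm
  refine ⟨lam' m, Q m, ⟨fun i => ?_, fun i => ?_, ?_⟩, ?_, ?_, ?_, ?_⟩
  · rw [hlam']
    exact mul_ne_zero (hd.ne i) (Complex.exp_ne_zero _)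
  · rw [hlam']
    simp only
    rw [map_mul, hd.conj, ← Complex.exp_conj, (hzmem m).1]
  · have h1 := f.tor_eq (⟨z m, hzmem m⟩ : f.lie)
    have h2 : f.hom (f.co (⟨z m, hzmem m⟩ : f.lie)) = f.tor (⟨z m, hzmem m⟩ : f.lie) := by
      unfold Frame.hom
      rw [f.co.symm_apply_apply]
    rw [h2, Matrix.SpecialLinearGroup.coe_mul, map_mul, h1, ← mul_assoc, hd.eq]
    have e1 : Matrix.diagonal lam * f.R *
        (f.Q * Matrix.diagonal (fun i => Complex.exp (z m i)) * f.R) =
        Matrix.diagonal lam * (f.R * f.Q) *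
          Matrix.diagonal (fun i => Complex.exp (z m i)) * f.R := by
      simp only [mul_assoc]
    rw [e1, f.RQ, mul_one, Matrix.diagonal_mul_diagonal, hlam']
  · intro i j hij
    by_contra hne
    exact hm i j hne hij
  · rw [hQ]
    simp only
    omega
  · intro i
    have hQ0 : (Q m : ℂ) ≠ 0 := by
      have := hQ1 m
      exact_mod_cast (by omega : Q m ≠ 0)
    have h1 : lam' m i = (‖lam' m i‖ : ℂ) *
        Complex.exp (((rnd (Q m) (Complex.arg (lam i)) : ℤ) : ℂ) * (2 * Real.pi * Complex.I) / Q m) := by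
      rw [hnorm, hlam']
      simp only
      have h2 := Complex.norm_mul_exp_arg_mul_I (lam i)
      rw [hz]
      simp only
      rw [Complex.exp_add]
      push_cast
      calc lam i * (Complex.exp (↑(e m) * ↑(wt f i)) *
            Complex.exp (↑(cor (Q m) (lam i).arg) * Complex.I)) =
            (‖lam i‖ * Complex.exp ((lam i).arg * Complex.I)) * (Complex.exp (↑(e m) * ↑(wt f i)) *
            Complex.exp (↑(cor (Q m) (lam i).arg) * Complex.I)) := by rw [h2]
        _ = ‖lam i‖ * Complex.exp (↑(e m) * ↑(wt f i)) * (Complex.exp ((lam i).arg * Complex.I) *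
            Complex.exp (↑(cor (Q m) (lam i).arg) * Complex.I)) := by ring
        _ = _ := by
            rw [← Complex.exp_add]
            congr 2
            unfold cor
            push_cast
            field_simp
            ring
    have h3 : lam' m i ^ Q m = ((‖lam' m i‖ : ℂ) * Complex.exp
        (((rnd (Q m) (Complex.arg (lam i)) : ℤ) : ℂ) * (2 * Real.pi * Complex.I) / Q m)) ^ Q m := by
      rw [← h1]
    rw [h3, mul_pow, ← Complex.exp_nat_mul]
    have e2 : (Q m : ℂ) * (((rnd (Q m) (Complex.arg (lam i)) : ℤ) : ℂ) *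
        (2 * Real.pi * Complex.I) / Q m) =
        ((rnd (Q m) (Complex.arg (lam i)) : ℤ) : ℂ) * (2 * Real.pi * Complex.I) := by
      field_simp
    rw [e2, Complex.exp_int_mul_two_pi_mul_I, mul_one]
    push_cast
    rfl
  · intro i j h1 h2
    rw [hnorm, hnorm]
    exact he m i j h1 h2

variable {n : ℕ} {N : Type u} [TopologicalSpace N] [T2Space N] [CompactSpace N]
  [ChartedSpace (V n) N] [IsManifold (𝓡 n) ∞ N] {r : ℕ∞}

theorem pp_diag {O : Set N} {act : SLd d → N → N} (hact : IsSLdAction d n N O act) {y : N}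
    (hyO : y ∈ O) (hlat : IsLatticePt act y) {m : ℕ} (hm : 1 ≤ m) {k : SLd d} {l : ℕ}
    (hl : 1 ≤ l) (hk : act (k ^ l) y = y) (f : Frame d) {h : SLd d} {lam : Fin d → ℂ}
    (hd : Diag f h lam) (hinj : ∀ i j, lam i = lam j → i = j) : PP n r act y m k h := by
  refine pp_limit hact hyO hlat hm f.hom_fam ?_
  refine (exists_nice f hd hinj).mono ?_
  rintro t ⟨lam', q, hn⟩ F hF hdis
  exact step hact hyO hlat F hm hl hk hF hdis (hn.close hact hyO hlat)

end Pool.Agent.Y368.SLD
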