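import Pool.Agent.Y368.SLD.DenseA

/-!
# All translations
-/

set_option autoImplicit false
set_option linter.unusedSectionVars false

open scoped Topology ContDiff Manifold
open Filter Set Metric

universe u

namespace Pool.Agent.Y368.SLD

open Pool.Agent.H718R2.G Pool.Agent.TH382.QC Pool.Agent.TH382.HS

variable {d : ℕ}

theorem kry_map {S T : Type*} [CommRing S] [CommRing T] (φ : S →+* T) (v : Fin d → S)
    (A : Matrix (Fin d) (Fin d) S) :
    φ (kry v A).det = (kry (fun i => φ (v i)) (φ.mapMatrix A)).det := by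
  rw [RingHom.map_det]
  congr 1
  ext i j
  show φ (((A ^ (j : ℕ)).mulVec v) i) = ((φ.mapMatrix A ^ (j : ℕ)).mulVec (fun i => φ (v i))) i
  rw [RingHom.map_mulVec, ← map_pow]
  rfl

theorem el_fam {i j : Fin d} (h : i ≠ j) : IsHomFam (fun t : V 1 => El h (t 0)) where
  smooth a b := by
    have h1 : ∀ t : V 1, (El h (t 0)).1 a b = (1 : Md d) a b + Matrix.single i j (t 0) a b :=
      fun t => rfl
    have h2 : (fun t : V 1 => (El h (t 0)).1 a b) =
      fun t : V 1 => (1 : Md d) a b + Matrix.single i j (t 0) a b := funext h1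
    rw [h2]
    refine contDiff_const.add ?_
    simp only [Matrix.single_apply]
    by_cases hk : i = a ∧ j = b
    · simp only [if_pos hk]
      fun_prop
    · simp only [if_neg hk]
      exact contDiff_const
  add s t := Matrix.SpecialLinearGroup.transvection_add h (s 0) (t 0)

open Polynomial in
theorem pol_exists (v : Fin d → ℝ) {i j : Fin d} (h : i ≠ j) (g g' : SLd d) :
    ∃ q : ℝ[X], ∀ s : ℝ, q.eval s = (kry v (g * El h s * g').1).det := by
  refine ⟨(kry (fun a => C (v a)) ((C : ℝ →+* ℝ[X]).mapMatrix g.1 *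
    (1 + Matrix.single i j (X : ℝ[X])) * (C : ℝ →+* ℝ[X]).mapMatrix g'.1)).det, fun s => ?_⟩
  have h1 := kry_map (evalRingHom s) (fun a => C (v a)) ((C : ℝ →+* ℝ[X]).mapMatrix g.1 *
    (1 + Matrix.single i j (X : ℝ[X])) * (C : ℝ →+* ℝ[X]).mapMatrix g'.1)
  rw [coe_evalRingHom] at h1
  rw [h1]
  congr 2
  · funext a
    rw [eval_C]
  · rw [map_mul, map_mul, Matrix.SpecialLinearGroup.coe_mul, Matrix.SpecialLinearGroup.coe_mul]
    have h2 : ∀ B : Md d, (evalRingHom s).mapMatrix ((C : ℝ →+* ℝ[X]).mapMatrix B) = B := by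
      intro B
      ext a b
      show eval s (C (B a b)) = B a b
      rw [eval_C]
    rw [h2, h2]
    congr 2
    rw [map_add, map_one, el_coe]
    congr 1
    ext a b
    show eval s (Matrix.single i j (X : ℝ[X]) a b) = Matrix.single i j s a b
    rw [Matrix.single_apply, Matrix.single_apply]
    split_ifs
    · rw [eval_X]
    · rw [eval_zero]

variable [NeZero d] {n : ℕ} {N : Type u} [TopologicalSpace N] [T2Space N] [CompactSpace N]
  [ChartedSpace (V n) N] [IsManifold (𝓡 n) ∞ N] {r : ℕ∞}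

theorem pp_list (hd2 : 2 ≤ d) {O : Set N} {act : SLd d → N → N} (hact : IsSLdAction d n N O act)
    {y : N} (hyO : y ∈ O) (hlat : IsLatticePt act y) {m : ℕ} (hm : 1 ≤ m) {k : SLd d} {l : ℕ}
    (hl : 1 ≤ l) (hk : act (k ^ l) y = y) (v : Fin d → ℝ) (L : List (SLd d)) :
    (∀ g ∈ L, ∃ (i j : Fin d) (h : i ≠ j) (t : ℝ), El h t = g) → ∀ h : SLd d,
      (kry v (h * L.prod).1).det ≠ 0 → PP n r act y m k h := by
  induction L with
  | nil =>
    intro _ h hh
    rw [List.prod_nil, mul_one] at hh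
    obtain ⟨c, hc, hf⟩ := exists_regular hd2 hh
    refine pp_limit hact hyO hlat hm hc (hf.mono ?_)
    rintro t ⟨f, lam, hD, hinj⟩
    exact pp_diag hact hyO hlat hm hl hk f hD hinj
  | cons g L ih =>
    intro hL h hh
    obtain ⟨i, j, hij, t₀, hg⟩ := hL g List.mem_cons_self
    have hL' : ∀ g ∈ L, ∃ (i j : Fin d) (h : i ≠ j) (t : ℝ), El h t = g :=
      fun g hg => hL g (List.mem_cons_of_mem _ hg)
    obtain ⟨q, hq⟩ := pol_exists v hij h L.prod
    have hq0 : q ≠ 0 := by
      intro h0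
      apply hh
      rw [List.prod_cons, ← mul_assoc, ← hg, ← hq, h0, Polynomial.eval_zero]
    have hev : ∀ᶠ s in 𝓝[≠] (0 : ℝ), q.eval s ≠ 0 := by
      have h1 : ∀ᶠ s in 𝓝[≠] (0 : ℝ), ∀ α ∈ q.roots.toFinset, s ≠ α := by
        rw [Filter.eventually_all_finset]
        intro α _
        by_cases h0 : α = 0
        · rw [h0]
          exact self_mem_nhdsWithin
        · exact mem_nhdsWithin_of_mem_nhds (isOpen_ne.mem_nhds (Ne.symm h0))
      filter_upwards [h1] with s hs h0
      exact hs s (by rw [Multiset.mem_toFinset, Polynomial.mem_roots hq0]; exact h0) rfl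
    obtain ⟨s, hst, hs⟩ := exists_seq_forall_of_frequently hev.frequently
    have hst' : Tendsto s atTop (𝓝 0) := hst.mono_right nhdsWithin_le_nhds
    have htt : Tendsto (fun m => s m • EuclideanSpace.single (0 : Fin 1) (1 : ℝ)) atTop
        (𝓝 (0 : V 1)) := by
      have h1 := hst'.smul_const (EuclideanSpace.single (0 : Fin 1) (1 : ℝ) : V 1)
      rwa [zero_smul] at h1
    refine pp_limit hact hyO hlat hm (el_fam hij)
      (htt.frequently (Eventually.frequently (Eventually.of_forall fun a => ?_)))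
    have ht0 : (s a • EuclideanSpace.single (0 : Fin 1) (1 : ℝ) : V 1) 0 = s a := by simp
    simp only
    rw [ht0]
    refine ih hL' _ ?_
    rw [← hq]
    exact hs a

/-- a translation with a cyclic vector -/
theorem exists_cyc (d : ℕ) [NeZero d] : ∃ g : SLd d, (kry (fun _ => 1) g.1).det ≠ 0 := by
  obtain ⟨b, hb⟩ : ∃ b : Fin d → ℝ, b = fun i : Fin d => ((i : ℕ) : ℝ) - (∑ j : Fin d, ((j : ℕ) : ℝ)) / d :=
    ⟨_, rfl⟩
  have hsum : ∑ i, b i = 0 := by
    rw [hb]
    simp only
    rw [Finset.sum_sub_distrib, Finset.sum_const, Finset.card_univ, Fintype.card_fin, nsmul_eq_mul,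
      mul_div_cancel₀ _ (by exact_mod_cast NeZero.ne d), sub_self]
  have hinj : Function.Injective (fun i => Real.exp (b i)) := by
    intro i j hij
    have h1 := Real.exp_injective hij
    rw [hb] at h1
    simp only at h1
    have h2 : ((i : ℕ) : ℝ) = ((j : ℕ) : ℝ) := by linarith
    exact Fin.ext (by exact_mod_cast h2)
  refine ⟨⟨Matrix.diagonal (fun i => Real.exp (b i)), by
    rw [Matrix.det_diagonal, ← Real.exp_sum, hsum, Real.exp_zero]⟩, ?_⟩
  have h1 : kry (fun _ => 1) (Matrix.diagonal (fun i => Real.exp (b i))) =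
      Matrix.vandermonde (fun i => Real.exp (b i)) := by
    ext i j
    show ((Matrix.diagonal (fun i => Real.exp (b i)) ^ (j : ℕ)).mulVec (fun _ => 1)) i = _
    rw [Matrix.diagonal_pow, Matrix.mulVec_diagonal, mul_one, Matrix.vandermonde_apply]
    rfl
  show (kry (fun _ => 1) (Matrix.diagonal (fun i => Real.exp (b i)))).det ≠ 0
  rw [h1]
  exact Matrix.det_vandermonde_ne_zero_iff.2 hinj

theorem pp_all (hd2 : 2 ≤ d) {O : Set N} {act : SLd d → N → N} (hact : IsSLdAction d n N O act)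
    {y : N} (hyO : y ∈ O) (hlat : IsLatticePt act y) {m : ℕ} (hm : 1 ≤ m) {k : SLd d} {l : ℕ}
    (hl : 1 ≤ l) (hk : act (k ^ l) y = y) (h : SLd d) : PP n r act y m k h := by
  obtain ⟨g, hg⟩ := exists_cyc d
  have hcl : Subgroup.closure {x : SLd d | ∃ (i j : Fin d) (h : i ≠ j) (t : ℝ), El h t = x} = ⊤ :=
    gen _ fun i j h t => Subgroup.subset_closure ⟨i, j, h, t, rfl⟩
  have hmem : h⁻¹ * g ∈ Subgroup.closure
      {x : SLd d | ∃ (i j : Fin d) (h : i ≠ j) (t : ℝ), El h t = x} := by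
    rw [hcl]
    exact Subgroup.mem_top _
  rw [← Subgroup.mem_toSubmonoid, Subgroup.closure_toSubmonoid] at hmem
  obtain ⟨L, hL, hLp⟩ := Submonoid.exists_list_of_mem_closure hmem
  refine pp_list hd2 hact hyO hlat hm hl hk (fun _ => 1) L ?_ h ?_
  · intro x hx
    rcases hL x hx with h1 | ⟨i, j, hij, t, ht⟩
    · exact h1
    · refine ⟨i, j, hij, -t, ?_⟩
      have h2 := Matrix.SpecialLinearGroup.transvection_inv hij t
      refine h2.symm.trans ?_
      have h3 : (Matrix.SpecialLinearGroup.transvection hij t : SLd d) = x⁻¹ := ht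
      rw [h3, inv_inv]
  · rw [hLp, mul_inv_cancel_left]
    exact hg

theorem closable_of_slPer (hd2 : 2 ≤ d) (F : DiffM n N r) (y : N) (hF : IsSLdPer d n N F y) :
    ClosableAt n N r F y := by
  obtain ⟨O, act, hact, hyO, hlat, m, hm, ⟨h, k, l, hl, hk, hFm⟩, hdis⟩ := hF
  exact pp_all hd2 hact hyO hlat hm hl hk h F hFm hdis

theorem main (F : DiffM n N r) (z : N)
    (h : ∀ U : Set (DiffM n N r), IsOpen[strongTop n N r] U → F ∈ U →
      ∃ F' ∈ U, z ∈ closure {y | ∃ d, 2 ≤ d ∧ IsSLdPer d n N F' y}) : ClosableAt n N r F z := by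
  apply closable_of_limit
  intro U hU hFU
  obtain ⟨F', hF', hz⟩ := h U hU hFU
  refine ⟨F', hF', closure_mono ?_ hz⟩
  rintro y ⟨d, hd, hy⟩
  have : NeZero d := ⟨by omega⟩
  exact closable_of_slPer hd F' y hy

end Pool.Agent.Y368.SLD
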