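import Pool.Agent.Y368.SLD.Vol
import Pool.Agent.Y368.SLD.Step

/-!
# Complex diagonalisations of real matrices
-/

set_option autoImplicit false
set_option linter.unusedSectionVars false

open scoped Topology ContDiff
open Filter Set Metric

namespace Pool.Agent.Y368.SLD

open Pool.Agent.H718R2.G

/-- complex matrices -/
abbrev Mc (d : ℕ) := Matrix (Fin d) (Fin d) ℂ

/-- complexification -/
noncomputable def toC {d : ℕ} : Md d →+* Mc d := Complex.ofRealHom.mapMatrix

theorem toC_apply {d : ℕ} (A : Md d) (i j : Fin d) : toC A i j = (A i j : ℂ) := rfl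

theorem toC_inj {d : ℕ} {A B : Md d} (h : toC A = toC B) : A = B := by
  ext i j
  have := congrFun (congrFun h i) j
  rw [toC_apply, toC_apply] at this
  exact_mod_cast this

theorem toC_det {d : ℕ} (A : Md d) : (toC A).det = (A.det : ℂ) := by
  have := RingHom.map_det Complex.ofRealHom A
  exact this.symm

/-- entrywise complex conjugation -/
noncomputable def cj {d : ℕ} : Mc d →+* Mc d := (starRingEnd ℂ).mapMatrix

theorem cj_apply {d : ℕ} (A : Mc d) (i j : Fin d) : cj A i j = (starRingEnd ℂ) (A i j) := rfl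

theorem real_of_cj {d : ℕ} {A : Mc d} (h : cj A = A) : ∃ B : Md d, toC B = A := by
  refine ⟨fun i j => (A i j).re, ?_⟩
  ext i j
  have h1 := congrFun (congrFun h i) j
  rw [cj_apply] at h1
  rw [toC_apply]
  exact Complex.conj_eq_iff_re.1 h1

/-- a complex frame which is stable under complex conjugation -/
structure Frame (d : ℕ) where
  R : Mc d
  Q : Mc d
  τ : Equiv.Perm (Fin d)
  RQ : R * Q = 1
  QR : Q * R = 1
  inv : ∀ i, τ (τ i) = i
  conj : ∀ i j, (starRingEnd ℂ) (R i j) = R (τ i) j

namespace Frame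

variable {d : ℕ} (f : Frame d)

theorem cjR : cj f.R = f.R.submatrix f.τ id := by
  ext i j
  rw [cj_apply, f.conj]
  rfl

theorem cjQ : cj f.Q = f.Q.submatrix id f.τ := by
  have h1 : cj f.Q * cj f.R = 1 := by rw [← map_mul, f.QR, map_one]
  have h2 : cj f.R * cj f.Q = 1 := by rw [← map_mul, f.RQ, map_one]
  have h3 : (f.Q.submatrix id f.τ) * (f.R.submatrix f.τ id) = 1 := by
    rw [Matrix.submatrix_mul_equiv, f.QR]
    rfl
  rw [← f.cjR] at h3
  calc cj f.Q = (f.Q.submatrix id f.τ * cj f.R) * cj f.Q := by rw [h3, one_mul]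
    _ = f.Q.submatrix id f.τ * (cj f.R * cj f.Q) := by rw [mul_assoc]
    _ = _ := by rw [h2, mul_one]

theorem real {X : Mc d} (hX : ∀ i j, (starRingEnd ℂ) (X i j) = X (f.τ i) (f.τ j)) :
    ∃ A : Md d, toC A = f.Q * X * f.R := by
  apply real_of_cj
  have hcX : cj X = X.submatrix f.τ f.τ := by
    ext i j
    rw [cj_apply, hX]
    rfl
  rw [map_mul, map_mul, f.cjR, f.cjQ, hcX, Matrix.submatrix_mul_equiv, Matrix.submatrix_mul_equiv]
  rfl

theorem sym (A : Md d) (i j : Fin d) :
    (starRingEnd ℂ) ((f.R * toC A * f.Q) i j) = (f.R * toC A * f.Q) (f.τ i) (f.τ j) := by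
  have hA : cj (toC A) = toC A := by
    ext i j
    rw [cj_apply, toC_apply, Complex.conj_ofReal]
  have h1 : cj (f.R * toC A * f.Q) = (f.R * toC A * f.Q).submatrix f.τ f.τ := by
    rw [map_mul, map_mul, f.cjR, f.cjQ, hA]
    have h2 : f.R.submatrix f.τ id * toC A = (f.R * toC A).submatrix f.τ id := by
      ext i j
      rfl
    rw [h2]
    ext i j
    rfl
  have := congrFun (congrFun h1 i) j
  rwa [cj_apply] at this

/-- the Lie algebra of the torus -/
def lie : Submodule ℝ (Fin d → ℂ) where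
  carrier := {z | (∀ i, (starRingEnd ℂ) (z i) = z (f.τ i)) ∧ ∑ i, z i = 0}
  add_mem' := by
    rintro a b ⟨ha1, ha2⟩ ⟨hb1, hb2⟩
    refine ⟨fun i => ?_, ?_⟩
    · rw [Pi.add_apply, map_add, ha1, hb1, Pi.add_apply]
    · simp only [Pi.add_apply, Finset.sum_add_distrib, ha2, hb2, add_zero]
  zero_mem' := ⟨fun i => by simp, by simp⟩
  smul_mem' := by
    rintro c a ⟨ha1, ha2⟩
    refine ⟨fun i => ?_, ?_⟩
    · rw [Pi.smul_apply, Pi.smul_apply, ← ha1, Complex.real_smul, Complex.real_smul, map_mul,
        Complex.conj_ofReal]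
    · simp only [Pi.smul_apply, ← Finset.smul_sum, ha2, smul_zero]

theorem exp_sym {z : Fin d → ℂ} (hz : z ∈ f.lie) (i j : Fin d) :
    (starRingEnd ℂ) (Matrix.diagonal (fun i => Complex.exp (z i)) i j) =
      Matrix.diagonal (fun i => Complex.exp (z i)) (f.τ i) (f.τ j) := by
  by_cases h : i = j
  · subst h
    rw [Matrix.diagonal_apply_eq, Matrix.diagonal_apply_eq, ← Complex.exp_conj, hz.1]
  · rw [Matrix.diagonal_apply_ne _ h, Matrix.diagonal_apply_ne _ (fun h' => h (f.τ.injective h')),
      map_zero]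

theorem exists_tor (z : f.lie) : ∃ g : SLd d,
    toC g.1 = f.Q * Matrix.diagonal (fun i => Complex.exp (z.1 i)) * f.R := by
  obtain ⟨A, hA⟩ := f.real (f.exp_sym z.2)
  have hd : A.det = 1 := by
    have h1 := toC_det A
    rw [hA, Matrix.det_mul, Matrix.det_mul, Matrix.det_diagonal, ← Complex.exp_sum, z.2.2,
      Complex.exp_zero, mul_one, ← Matrix.det_mul, f.QR, Matrix.det_one] at h1
    exact_mod_cast h1.symm
  exact ⟨⟨A, hd⟩, hA⟩

/-- the torus -/
noncomputable def tor (z : f.lie) : SLd d := (f.exists_tor z).choose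

theorem tor_eq (z : f.lie) :
    toC (f.tor z).1 = f.Q * Matrix.diagonal (fun i => Complex.exp (z.1 i)) * f.R :=
  (f.exists_tor z).choose_spec

theorem tor_add (z w : f.lie) : f.tor (z + w) = f.tor z * f.tor w := by
  apply Subtype.ext
  apply toC_inj
  rw [Matrix.SpecialLinearGroup.coe_mul, map_mul, f.tor_eq, f.tor_eq, f.tor_eq]
  have e : f.Q * Matrix.diagonal (fun i => Complex.exp (z.1 i)) * f.R *
      (f.Q * Matrix.diagonal (fun i => Complex.exp (w.1 i)) * f.R) =
      f.Q * (Matrix.diagonal (fun i => Complex.exp (z.1 i)) * (f.R * f.Q) *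
        Matrix.diagonal (fun i => Complex.exp (w.1 i))) * f.R := by
    simp only [mul_assoc]
  rw [e, f.RQ, mul_one, Matrix.diagonal_mul_diagonal]
  congr 3
  funext i
  rw [← Complex.exp_add]
  rfl

/-- the dimension of the torus -/
noncomputable def dim : ℕ := Module.finrank ℝ f.lie

/-- coordinates -/
noncomputable def co : f.lie ≃L[ℝ] V f.dim :=
  ContinuousLinearEquiv.ofFinrankEq (by
    unfold dim
    exact (finrank_euclideanSpace_fin).symm)

/-- the homomorphism onto the torus -/
noncomputable def hom (s : V f.dim) : SLd d := f.tor (f.co.symm s)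

theorem hom_fam : IsHomFam f.hom where
  smooth a b := by
    have h1 : ∀ s, (f.hom s).1 a b =
        (∑ i, f.Q a i * Complex.exp ((f.co.symm s).1 i) * f.R i b).re := by
      intro s
      have h2 := congrFun (congrFun (f.tor_eq (f.co.symm s)) a) b
      rw [toC_apply, Matrix.mul_apply] at h2
      simp only [Matrix.mul_diagonal] at h2
      rw [← h2, Complex.ofReal_re]
      rfl
    have h3 : (fun s => (f.hom s).1 a b) =
        fun s => (∑ i, f.Q a i * Complex.exp ((f.co.symm s).1 i) * f.R i b).re := funext h1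
    rw [h3]
    have h4 : ∀ i, ContDiff ℝ ∞ (fun s : V f.dim => (f.co.symm s).1 i) := by
      intro i
      have h5 : ContDiff ℝ ∞ (fun s : V f.dim => (f.co.symm s).1) :=
        (f.lie.subtypeL.comp (f.co.symm : V f.dim →L[ℝ] f.lie)).contDiff
      exact (contDiff_pi.1 h5) i
    have h6 : ContDiff ℝ ∞ (fun s : V f.dim =>
        ∑ i, f.Q a i * Complex.exp ((f.co.symm s).1 i) * f.R i b) := by
      refine ContDiff.sum fun i _ => ?_
      exact (contDiff_const.mul (h4 i).cexp).mul contDiff_const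
    exact Complex.reCLM.contDiff.comp h6
  add s t := by
    unfold hom
    rw [map_add, f.tor_add]

end Frame

end Pool.Agent.Y368.SLD
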