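import Pool.Agent.Y368.SLD.Defs

/-!
# `SL(d, ℝ)` is generated by the transvections
-/

set_option autoImplicit false
set_option linter.unusedSectionVars false
set_option linter.unusedSimpArgs false

open Filter Set Metric Topology

namespace Pool.Agent.Y368.SLD

open Matrix

variable {d : ℕ}

/-- the transvection `1 + t e_{ij}` -/
abbrev El {i j : Fin d} (h : i ≠ j) (t : ℝ) : SLd d := Matrix.SpecialLinearGroup.transvection h t

theorem el_coe {i j : Fin d} (h : i ≠ j) (t : ℝ) : (El h t).1 = 1 + Matrix.single i j t := rfl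

theorem el_comm {i j l : Fin d} (hij : i ≠ j) (hjl : j ≠ l) (hil : i ≠ l) (a b : ℝ) :
    El hij a * El hjl b = El hil (a * b) * (El hjl b * El hij a) := by
  apply Subtype.ext
  simp only [Matrix.SpecialLinearGroup.coe_mul, el_coe]
  simp [mul_add, add_mul, hij, hjl, hil, hij.symm, hjl.symm, hil.symm]
  abel

/-- `w(a)` -/
theorem wey_coe {i j : Fin d} (h : i ≠ j) {a : ℝ} (ha : a ≠ 0) :
    (El h a * El h.symm (-a⁻¹) * El h a).1 =
      1 - Matrix.single i i 1 - Matrix.single j j 1 + (Matrix.single i j a + Matrix.single j i (-a⁻¹)) := by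
  simp only [Matrix.SpecialLinearGroup.coe_mul, el_coe]
  simp [mul_add, add_mul, h, h.symm, ha]
  have e1 : ∀ (k l : Fin d) (x : ℝ), Matrix.single k l (-x) = -Matrix.single k l x := fun k l x => by
    rw [← Matrix.single_neg]
  simp only [e1]
  abel

theorem diag_coe {i j : Fin d} (h : i ≠ j) {a : ℝ} (ha : a ≠ 0) :
    (El h a * El h.symm (-a⁻¹) * El h a * (El h (-1) * El h.symm 1 * El h (-1))).1 =
      Matrix.diagonal (Function.update (Function.update (1 : Fin d → ℝ) i a) j a⁻¹) := by
  have h1 := wey_coe h ha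
  have h2 := wey_coe h (a := -1) (by norm_num)
  have e0 : (-(-1 : ℝ)⁻¹) = 1 := by norm_num
  rw [e0] at h2
  rw [Matrix.SpecialLinearGroup.coe_mul, h1, h2]
  have e : (1 - Matrix.single i i 1 - Matrix.single j j 1 +
      (Matrix.single i j a + Matrix.single j i (-a⁻¹))) *
      (1 - Matrix.single i i 1 - Matrix.single j j 1 +
      (Matrix.single i j (-1) + Matrix.single j i (1 : ℝ))) =
      (1 : Matrix (Fin d) (Fin d) ℝ) - Matrix.single i i 1 - Matrix.single j j 1 +
        (Matrix.single i i a + Matrix.single j j a⁻¹) := by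
    simp [mul_add, add_mul, mul_sub, sub_mul, h, h.symm]
    abel
  rw [e]
  ext k l
  simp only [Matrix.add_apply, Matrix.sub_apply, Matrix.single_apply, Matrix.diagonal_apply,
    Matrix.one_apply, Function.update_apply, Pi.one_apply]
  by_cases hkl : k = l
  · subst hkl
    by_cases hkj : k = j
    · subst hkj
      simp [h]
    · by_cases hki : k = i
      · subst hki
        simp [h.symm, h]
      · simp [hkj, hki, Ne.symm hkj, Ne.symm hki]
  · have e1 : ∀ m : Fin d, ¬ (m = k ∧ m = l) := by
      rintro m ⟨rfl, rfl⟩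
      exact hkl rfl
    simp [hkl, e1]

/-- `SL(d, ℝ)` is generated by the transvections. -/
theorem gen (H : Subgroup (SLd d)) (hH : ∀ (i j : Fin d) (h : i ≠ j) (t : ℝ), El h t ∈ H) :
    H = ⊤ := by
  classical
  -- diagonal matrices
  have hdiag : ∀ (D : Fin d → ℝ) (i₀ : Fin d), (∀ i, D i ≠ 0) → ∀ s : Finset (Fin d), i₀ ∉ s →
      ∃ g ∈ H, g.1 = Matrix.diagonal
        (fun k => if k = i₀ then ∏ i ∈ s, (D i)⁻¹ else if k ∈ s then D k else 1) := by
    intro D i₀ hD s
    induction s using Finset.induction_on with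
    | empty =>
      intro _
      refine ⟨1, H.one_mem, ?_⟩
      have e : (fun k : Fin d => if k = i₀ then ∏ i ∈ (∅ : Finset (Fin d)), (D i)⁻¹ else
          if k ∈ (∅ : Finset (Fin d)) then D k else 1) = fun _ => 1 := by
        funext k
        simp
      rw [e, Matrix.diagonal_one]
      rfl
    | insert a s ha ih =>
      intro hi₀
      have hai : a ≠ i₀ := fun h => hi₀ (by rw [← h]; exact Finset.mem_insert_self _ _)
      have his : i₀ ∉ s := fun h => hi₀ (Finset.mem_insert_of_mem h)
      obtain ⟨g, hg, hgd⟩ := ih his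
      refine ⟨_ * g, H.mul_mem (H.mul_mem (H.mul_mem (H.mul_mem (hH a i₀ hai (D a))
        (hH i₀ a hai.symm (-(D a)⁻¹))) (hH a i₀ hai (D a)))
        (H.mul_mem (H.mul_mem (hH a i₀ hai (-1)) (hH i₀ a hai.symm 1)) (hH a i₀ hai (-1)))) hg, ?_⟩
      rw [Matrix.SpecialLinearGroup.coe_mul, diag_coe hai (hD a), hgd, Matrix.diagonal_mul_diagonal]
      congr 1
      funext k
      by_cases hk : k = i₀
      · subst hk
        simp only [Function.update_self, if_true]
        rw [Finset.prod_insert ha]
      · rw [Function.update_of_ne hk, if_neg hk, if_neg hk]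
        by_cases hka : k = a
        · subst hka
          rw [Function.update_self, if_neg ha, if_pos (Finset.mem_insert_self _ _), mul_one]
        · rw [Function.update_of_ne hka, Pi.one_apply, one_mul]
          by_cases hks : k ∈ s
          · rw [if_pos hks, if_pos (Finset.mem_insert_of_mem hks)]
          · rw [if_neg hks, if_neg (by rw [Finset.mem_insert]; tauto)]
  have hlist : ∀ L : List (Matrix.TransvectionStruct (Fin d) ℝ),
      ∃ g ∈ H, g.1 = (L.map Matrix.TransvectionStruct.toMatrix).prod := by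
    intro L
    induction L with
    | nil => exact ⟨1, H.one_mem, rfl⟩
    | cons t L ih =>
      obtain ⟨g, hg, hgL⟩ := ih
      refine ⟨El t.hij t.c * g, H.mul_mem (hH _ _ _ _) hg, ?_⟩
      rw [Matrix.SpecialLinearGroup.coe_mul, hgL, List.map_cons, List.prod_cons]
      rfl
  rw [eq_top_iff]
  intro M _
  obtain ⟨L, L', D, hD⟩ := Matrix.Pivot.exists_list_transvec_mul_mul_list_transvec_eq_diagonal M.1
  obtain ⟨g, hg, hgL⟩ := hlist L
  obtain ⟨g', hg', hgL'⟩ := hlist L'
  rw [← hgL, ← hgL', ← Matrix.SpecialLinearGroup.coe_mul, ← Matrix.SpecialLinearGroup.coe_mul] at hD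
  have hdet : ∏ i, D i = 1 := by
    rw [← Matrix.det_diagonal, ← hD]
    exact (g * M * g').2
  have hD0 : ∀ i, D i ≠ 0 := by
    intro i h0
    rw [Finset.prod_eq_zero (Finset.mem_univ i) h0] at hdet
    exact zero_ne_one hdet
  have hmem : g * M * g' ∈ H := by
    rcases isEmpty_or_nonempty (Fin d) with hemp | ⟨⟨i₀⟩⟩
    · have : Subsingleton (SLd d) := by
        refine ⟨fun a b => ?_⟩
        apply Subtype.ext
        ext i
        exact isEmptyElim i
      rw [Subsingleton.elim (g * M * g') 1]
      exact H.one_mem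
    · obtain ⟨q, hq, hqd⟩ := hdiag D i₀ hD0 (Finset.univ.erase i₀) (Finset.notMem_erase _ _)
      have e : g * M * g' = q := by
        apply Subtype.ext
        rw [hD, hqd]
        congr 1
        funext k
        by_cases hk : k = i₀
        · subst hk
          rw [if_pos rfl, Finset.prod_inv_distrib]
          rw [← Finset.mul_prod_erase Finset.univ D (Finset.mem_univ k)] at hdet
          exact eq_inv_of_mul_eq_one_left hdet
        · rw [if_neg hk, if_pos (Finset.mem_erase.2 ⟨hk, Finset.mem_univ _⟩)]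
      rw [e]
      exact hq
  have e : M = g⁻¹ * (g * M * g') * g'⁻¹ := by group
  rw [e]
  exact H.mul_mem (H.mul_mem (H.inv_mem hg) hmem) (H.inv_mem hg')

end Pool.Agent.Y368.SLD
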