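import Pool.Agent.Y368.SLD.Rec
import Pool.Agent.Y368.SLD.Gen

/-!
# Topological transitivity of hyperbolic translations of `SL(d, ℝ) / Γ`
-/

set_option autoImplicit false
set_option linter.unusedSectionVars false

open Filter Set Metric Topology MeasureTheory

universe u

namespace Pool.Agent.Y368.SLD

variable {d : ℕ} [NeZero d]

/-- `Γ` is discrete and cocompact -/
structure IsLat (Γ : Subgroup (SLd d)) : Prop where
  disc : ∃ W ∈ 𝓝 (1 : SLd d), ∀ g ∈ W, g ∈ Γ → g = 1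
  coc : ∃ K : Set (SLd d), IsCompact K ∧ ∀ g, ∃ k ∈ K, k⁻¹ * g ∈ Γ

theorem recur_at {Γ : Subgroup (SLd d)} (hΓ : IsLat Γ) (x h : SLd d) (n₀ : ℕ) (B : Set (SLd d))
    (hB : B ∈ 𝓝 (1 : SLd d)) :
    ∃ n : ℕ, n₀ ≤ n ∧ ∃ b ∈ B, ∃ b' ∈ B, ∃ γ ∈ Γ, h ^ n * (b * x) = b' * x * γ := by
  obtain ⟨⟨W, hW, hWΓ⟩, K, hK, hKΓ⟩ := hΓ
  let Γ' : Subgroup (SLd d) :=
    { carrier := {g | x⁻¹ * g * x ∈ Γ}
      mul_mem' := by
        intro a b ha hb
        have h1 : x⁻¹ * (a * b) * x = (x⁻¹ * a * x) * (x⁻¹ * b * x) := by group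
        show x⁻¹ * (a * b) * x ∈ Γ
        rw [h1]
        exact Γ.mul_mem ha hb
      one_mem' := by
        show x⁻¹ * 1 * x ∈ Γ
        have h1 : x⁻¹ * 1 * x = 1 := by group
        rw [h1]
        exact Γ.one_mem
      inv_mem' := by
        intro a ha
        show x⁻¹ * a⁻¹ * x ∈ Γ
        have h1 : x⁻¹ * a⁻¹ * x = (x⁻¹ * a * x)⁻¹ := by group
        rw [h1]
        exact Γ.inv_mem ha }
  have hc1 : Continuous (fun g : SLd d => x⁻¹ * g * x) := by fun_prop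
  have hW' : (fun g : SLd d => x⁻¹ * g * x) ⁻¹' W ∈ 𝓝 (1 : SLd d) := by
    apply hc1.continuousAt.preimage_mem_nhds
    have : x⁻¹ * 1 * x = 1 := by group
    rw [this]
    exact hW
  have hc2 : Continuous (fun g : SLd d => g * x⁻¹) := by fun_prop
  obtain ⟨n, hn, b, hb, b', hb', γ, hγ, he⟩ := recur Γ' ((fun g : SLd d => x⁻¹ * g * x) ⁻¹' W) hW'
    (fun g hg hgΓ => by
      have h1 : x⁻¹ * g * x = 1 := hWΓ _ hg hgΓ
      have h2 : g = x * (x⁻¹ * g * x) * x⁻¹ := by group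
      rw [h2, h1]
      group) ((fun g : SLd d => g * x⁻¹) '' K) (hK.image hc2)
    (fun g => by
      obtain ⟨k, hk, hkg⟩ := hKΓ (g * x)
      refine ⟨k * x⁻¹, ⟨k, hk, rfl⟩, ?_⟩
      show x⁻¹ * ((k * x⁻¹)⁻¹ * g) * x ∈ Γ
      have h1 : x⁻¹ * ((k * x⁻¹)⁻¹ * g) * x = k⁻¹ * (g * x) := by group
      rw [h1]
      exact hkg) (h ^ (n₀ + 1)) B hB
  refine ⟨(n₀ + 1) * n, ?_, b, hb, b', hb', x⁻¹ * γ * x, hγ, ?_⟩
  · calc n₀ ≤ (n₀ + 1) * 1 := by omega
      _ ≤ (n₀ + 1) * n := Nat.mul_le_mul_left _ hn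
  · rw [pow_mul, ← mul_assoc, he]
    group

/-- the Mautner argument -/
theorem maut {Γ : Subgroup (SLd d)} (hΓ : IsLat Γ) {U : Set (SLd d)} (hU : IsOpen U)
    (hUΓ : ∀ x ∈ U, ∀ γ ∈ Γ, x * γ ∈ U) {S : SLd d}
    (hS' : ∀ x, x ∈ U → S * x ∈ U) {g : SLd d}
    (hg : Tendsto (fun n : ℕ => (S ^ n)⁻¹ * g * S ^ n) atTop (𝓝 1)) :
    ∀ x ∈ closure U, g * x ∈ closure U := by
  have hSn : ∀ (n : ℕ) (x : SLd d), x ∈ U → S ^ n * x ∈ U := by
    intro n
    induction n with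
    | zero =>
      intro x hx
      rwa [pow_zero, one_mul]
    | succ n ih =>
      intro x hx
      rw [pow_succ', mul_assoc]
      exact hS' _ (ih x hx)
  have key : ∀ x ∈ U, g * x ∈ closure U := by
    intro x hx
    rw [mem_closure_iff_nhds]
    intro N hN
    have hc1 : Continuous (fun p : SLd d × SLd d => p.1 * (p.2 * x)) := by fun_prop
    have hc2 : Continuous (fun b : SLd d => g * (b * x)) := by fun_prop
    have h1 : (fun p : SLd d × SLd d => p.1 * (p.2 * x)) ⁻¹' U ∈ 𝓝 ((1 : SLd d), (1 : SLd d)) := by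
      apply hc1.continuousAt.preimage_mem_nhds
      simpa using hU.mem_nhds hx
    have h2 : (fun b : SLd d => g * (b * x)) ⁻¹' N ∈ 𝓝 (1 : SLd d) := by
      apply hc2.continuousAt.preimage_mem_nhds
      simpa using hN
    rw [nhds_prod_eq] at h1
    obtain ⟨u, hu, hu2⟩ := Filter.mem_prod_same_iff.1 h1
    obtain ⟨n₀, hn₀⟩ := eventually_atTop.1 (hg.eventually hu)
    obtain ⟨n, hn, b, hb, b', hb', γ, hγ, he⟩ := recur_at hΓ x S⁻¹ n₀ _ (inter_mem hu h2)
    refine ⟨g * (b * x), hb.2, ?_⟩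
    have h3 : ((S ^ n)⁻¹ * g * S ^ n) * (b' * x) ∈ U :=
      hu2 (mk_mem_prod (hn₀ n hn) hb'.1)
    have h4 : (S ^ n)⁻¹ * (g * (b * x)) ∈ U := by
      have h5 : (S ^ n)⁻¹ * (g * (b * x)) = ((S ^ n)⁻¹ * g * S ^ n) * (b' * x) * γ := by
        have h6 : ((S ^ n)⁻¹ * g * S ^ n) * (b' * x) * γ =
            ((S ^ n)⁻¹ * g * S ^ n) * (b' * x * γ) := by group
        rw [h6, ← he, inv_pow]
        group
      rw [h5]
      exact hUΓ _ h3 _ hγ
    have h7 := hSn n _ h4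
    rwa [mul_inv_cancel_left] at h7
  intro x hx
  have h1 := map_mem_closure (continuous_const_mul g) hx (t := closure U) key
  rwa [closure_closure] at h1

theorem el_conj {i j : Fin d} (h : i ≠ j) (t : ℝ) {Δ : SLd d} {D : Fin d → ℝ} (hD : ∀ i, D i ≠ 0)
    (hΔ : Δ.1 = Matrix.diagonal D) : Δ⁻¹ * El h t * Δ = El h (t * (D j / D i)) := by
  have h1 : El h t * Δ = Δ * El h (t * (D j / D i)) := by
    apply Subtype.ext
    rw [Matrix.SpecialLinearGroup.coe_mul, Matrix.SpecialLinearGroup.coe_mul, hΔ, el_coe, el_coe]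
    rw [add_mul, mul_add, one_mul, mul_one]
    congr 1
    ext k l
    rw [Matrix.mul_diagonal, Matrix.diagonal_mul, Matrix.single_apply, Matrix.single_apply]
    by_cases hk : i = k ∧ j = l
    · obtain ⟨rfl, rfl⟩ := hk
      rw [if_pos ⟨rfl, rfl⟩, if_pos ⟨rfl, rfl⟩]
      field_simp [hD i]
    · rw [if_neg hk, if_neg hk, zero_mul, mul_zero]
  rw [mul_assoc, h1, inv_mul_cancel_left]

theorem el_cont {i j : Fin d} (h : i ≠ j) : Continuous (El h : ℝ → SLd d) := by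
  have h1 : Topology.IsInducing (fun x : SLd d => x.1) := ⟨rfl⟩
  rw [h1.continuous_iff]
  have h2 : Continuous fun t : ℝ => (1 : Md d) + Matrix.single i j t := by
    refine continuous_const.add ?_
    refine continuous_matrix fun k l => ?_
    simp only [Matrix.single_apply]
    by_cases hk : i = k ∧ j = l
    · simp only [if_pos hk]
      exact continuous_id
    · simp only [if_neg hk]
      exact continuous_const
  exact h2

theorem pow_diag {Δ : SLd d} {D : Fin d → ℝ} (hΔ : Δ.1 = Matrix.diagonal D) (n : ℕ) :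
    (Δ ^ n).1 = Matrix.diagonal (fun i => D i ^ n) := by
  rw [Matrix.SpecialLinearGroup.coe_pow, hΔ, Matrix.diagonal_pow]
  rfl

theorem trans {Γ : Subgroup (SLd d)} (hΓ : IsLat Γ) {U : Set (SLd d)} (hU : IsOpen U)
    (hUne : U.Nonempty) (hUΓ : ∀ x ∈ U, ∀ γ ∈ Γ, x * γ ∈ U) {S : SLd d}
    (hS : ∀ x, S * x ∈ U ↔ x ∈ U) {P Δ : SLd d} (hP : P * S = Δ * P) {D : Fin d → ℝ}
    (hD : ∀ i, 0 < D i) (hΔ : Δ.1 = Matrix.diagonal D) (hne : ∃ i j, D i ≠ D j) :
    closure U = univ := by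
  have hSinv : ∀ x, S⁻¹ * x ∈ U ↔ x ∈ U := by
    intro x
    rw [← hS (S⁻¹ * x), mul_inv_cancel_left]
  have hD0 : ∀ i, D i ≠ 0 := fun i => (hD i).ne'
  have hconj : S = P⁻¹ * Δ * P := by
    rw [mul_assoc, ← hP]
    group
  have hconjn : ∀ n : ℕ, S ^ n = P⁻¹ * Δ ^ n * P := by
    intro n
    induction n with
    | zero => simp
    | succ n ih =>
      rw [pow_succ, ih, pow_succ, hconj]
      group
  -- the elementary matrices
  have hel : ∀ (i j : Fin d) (h : i ≠ j) (t : ℝ), D i ≠ D j → ∀ x ∈ closure U,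
      (P⁻¹ * El h t * P) * x ∈ closure U := by
    intro i j h t hij
    have hlim : ∀ (q : ℝ), 0 ≤ q → q < 1 →
        Tendsto (fun n : ℕ => P⁻¹ * El h (t * q ^ n) * P) atTop (𝓝 1) := by
      intro q hq0 hq1
      have h1 : Tendsto (fun n : ℕ => t * q ^ n) atTop (𝓝 0) := by
        have := (tendsto_pow_atTop_nhds_zero_of_lt_one hq0 hq1).const_mul t
        rwa [mul_zero] at this
      have h2 : Continuous (fun s : ℝ => P⁻¹ * El h s * P) := by
        have := el_cont h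
        fun_prop
      have h3 := (h2.tendsto 0).comp h1
      have h4 : P⁻¹ * El h 0 * P = 1 := by
        have h5 : El h 0 = 1 := Matrix.SpecialLinearGroup.transvection_coeff_zero h
        rw [h5]
        group
      rw [h4] at h3
      exact h3
    rcases lt_or_gt_of_ne hij with hlt | hlt
    · -- `D i < D j`
      refine maut hΓ hU hUΓ (S := S⁻¹) (fun x hx => (hSinv x).2 hx) ?_
      refine (hlim (D i / D j) (div_pos (hD i) (hD j)).le ((div_lt_one (hD j)).2 hlt)).congr ?_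
      intro n
      have h5 : ((Δ ^ n)⁻¹).1 = Matrix.diagonal (fun i => (D i ^ n)⁻¹) := by
        have h6 : (Δ ^ n)⁻¹ * Δ ^ n = 1 := inv_mul_cancel _
        have h7 := congrArg Subtype.val h6
        rw [Matrix.SpecialLinearGroup.coe_mul, pow_diag hΔ] at h7
        have h8 : (Matrix.diagonal (fun i => D i ^ n)) * (Matrix.diagonal (fun i => (D i ^ n)⁻¹)) =
            (1 : Md d) := by
          rw [Matrix.diagonal_mul_diagonal, ← Matrix.diagonal_one]
          congr 1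
          funext i
          exact mul_inv_cancel₀ (pow_ne_zero _ (hD0 i))
        calc ((Δ ^ n)⁻¹).1 = ((Δ ^ n)⁻¹).1 * ((Matrix.diagonal (fun i => D i ^ n)) *
              (Matrix.diagonal (fun i => (D i ^ n)⁻¹))) := by rw [h8, mul_one]
          _ = _ := by
            rw [← mul_assoc, h7]
            exact one_mul _
      have h9 := el_conj h t (Δ := (Δ ^ n)⁻¹) (D := fun i => (D i ^ n)⁻¹)
        (fun i => inv_ne_zero (pow_ne_zero _ (hD0 i))) h5
      have h10 : (D j ^ n)⁻¹ / (D i ^ n)⁻¹ = (D i / D j) ^ n := by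
        rw [div_pow]
        field_simp
      rw [h10, inv_inv] at h9
      rw [← h9, inv_pow, inv_inv, hconjn]
      group
    · refine maut hΓ hU hUΓ (S := S) (fun x hx => (hS x).2 hx) ?_
      refine (hlim (D j / D i) (div_pos (hD j) (hD i)).le ((div_lt_one (hD i)).2 hlt)).congr ?_
      intro n
      have h9 := el_conj h t (Δ := Δ ^ n) (D := fun i => D i ^ n)
        (fun i => pow_ne_zero _ (hD0 i)) (pow_diag hΔ n)
      rw [← div_pow] at h9
      rw [← h9, hconjn]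
      group
  let H : Subgroup (SLd d) :=
    { carrier := {g | (∀ x ∈ closure U, (P⁻¹ * g * P) * x ∈ closure U) ∧
        ∀ x ∈ closure U, (P⁻¹ * g⁻¹ * P) * x ∈ closure U}
      mul_mem' := by
        rintro a b ⟨ha1, ha2⟩ ⟨hb1, hb2⟩
        refine ⟨fun x hx => ?_, fun x hx => ?_⟩
        · have h1 := ha1 _ (hb1 x hx)
          have h2 : (P⁻¹ * (a * b) * P) * x = (P⁻¹ * a * P) * ((P⁻¹ * b * P) * x) := by group
          rw [h2]
          exact h1
        · have h1 := hb2 _ (ha2 x hx)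
          have h2 : (P⁻¹ * (a * b)⁻¹ * P) * x = (P⁻¹ * b⁻¹ * P) * ((P⁻¹ * a⁻¹ * P) * x) := by group
          rw [h2]
          exact h1
      one_mem' := by
        refine ⟨fun x hx => ?_, fun x hx => ?_⟩
        · have h2 : (P⁻¹ * 1 * P) * x = x := by group
          rw [h2]
          exact hx
        · have h2 : (P⁻¹ * 1⁻¹ * P) * x = x := by group
          rw [h2]
          exact hx
      inv_mem' := by
        rintro a ⟨ha1, ha2⟩
        refine ⟨ha2, fun x hx => ?_⟩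
        rw [inv_inv]
        exact ha1 x hx }
  have hHel : ∀ (i j : Fin d) (h : i ≠ j) (t : ℝ), D i ≠ D j → El h t ∈ H := by
    intro i j h t hij
    refine ⟨hel i j h t hij, fun x hx => ?_⟩
    rw [Matrix.SpecialLinearGroup.transvection_inv]
    exact hel i j h (-t) hij x hx
  have hH : H = ⊤ := by
    apply gen
    intro i j h t
    by_cases hij : D i = D j
    · obtain ⟨m, hm⟩ : ∃ m, D m ≠ D i := by
        obtain ⟨k, l, hkl⟩ := hne
        by_cases h1 : D k = D i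
        · exact ⟨l, fun h2 => hkl (by rw [h1, h2])⟩
        · exact ⟨k, h1⟩
      have him : i ≠ m := fun h1 => hm (by rw [h1])
      have hmj : m ≠ j := fun h1 => hm (by rw [h1, hij])
      have h1 := el_comm him hmj h t 1
      rw [mul_one] at h1
      have h2 : El h t = El him t * El hmj 1 * (El hmj 1 * El him t)⁻¹ := by
        rw [h1]
        group
      rw [h2]
      have a1 : El him t ∈ H := hHel _ _ him t (Ne.symm hm)
      have a2 : El hmj 1 ∈ H := hHel _ _ hmj 1 (by rw [← hij]; exact hm)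
      exact H.mul_mem (H.mul_mem a1 a2) (H.inv_mem (H.mul_mem a2 a1))
    · exact hHel i j h t hij
  obtain ⟨x₀, hx₀⟩ := hUne
  rw [eq_univ_iff_forall]
  intro y
  have h1 : P * (y * x₀⁻¹) * P⁻¹ ∈ H := by rw [hH]; exact Subgroup.mem_top _
  have h2 := h1.1 x₀ (subset_closure hx₀)
  have h3 : P⁻¹ * (P * (y * x₀⁻¹) * P⁻¹) * P * x₀ = y := by group
  rwa [h3] at h2

/-- Return times congruent to `±1`. -/
theorem ret {Γ : Subgroup (SLd d)} (hΓ : IsLat Γ) {h S : SLd d} {q : ℕ} (hq : 2 ≤ q)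
    (hS : h ^ q = S) {P Δ : SLd d} (hP : P * S = Δ * P) {D : Fin d → ℝ}
    (hD : ∀ i, 0 < D i) (hΔ : Δ.1 = Matrix.diagonal D) (hne : ∃ i j, D i ≠ D j)
    (B : Set (SLd d)) (hB : B ∈ 𝓝 (1 : SLd d)) :
    ∃ k : ℕ, 1 ≤ k ∧ (∃ a : ℕ, k + 1 = q * a ∨ k = q * a + 1) ∧
      ∃ b ∈ B, ∃ b' ∈ B, ∃ γ ∈ Γ, h ^ k * b = b' * γ := by
  obtain ⟨B₀, hB₀B, hB₀, h1B₀⟩ := mem_nhds_iff.1 hB
  obtain ⟨U, hUd⟩ : ∃ U : Set (SLd d), U = ⋃ (j : ℤ) (γ : Γ), {x | S ^ j * x * (γ : SLd d) ∈ B₀} :=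
    ⟨_, rfl⟩
  have hU : IsOpen U := by
    rw [hUd]
    refine isOpen_iUnion fun j => isOpen_iUnion fun γ => ?_
    have hc : Continuous (fun x : SLd d => S ^ j * x * (γ : SLd d)) := by fun_prop
    exact hB₀.preimage hc
  have hmem : ∀ x, x ∈ U ↔ ∃ (j : ℤ) (γ : Γ), S ^ j * x * (γ : SLd d) ∈ B₀ := by
    intro x
    rw [hUd]
    simp only [mem_iUnion, mem_ofPred_eq]
  have hUne : U.Nonempty := ⟨1, (hmem 1).2 ⟨0, 1, by simpa using h1B₀⟩⟩
  have hUΓ : ∀ x ∈ U, ∀ γ ∈ Γ, x * γ ∈ U := by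
    intro x hx γ hγ
    obtain ⟨j, γ', hj⟩ := (hmem x).1 hx
    refine (hmem _).2 ⟨j, ⟨γ⁻¹ * γ', Γ.mul_mem (Γ.inv_mem hγ) γ'.2⟩, ?_⟩
    have e : S ^ j * (x * γ) * (γ⁻¹ * (γ' : SLd d)) = S ^ j * x * (γ' : SLd d) := by group
    show S ^ j * (x * γ) * (γ⁻¹ * (γ' : SLd d)) ∈ B₀
    rw [e]
    exact hj
  have hUS : ∀ x, S * x ∈ U ↔ x ∈ U := by
    intro x
    rw [hmem, hmem]
    constructor
    · rintro ⟨j, γ, hj⟩
      refine ⟨j + 1, γ, ?_⟩
      have e : S ^ (j + 1) * x = S ^ j * (S * x) := by rw [zpow_add_one, mul_assoc]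
      rw [e]
      exact hj
    · rintro ⟨j, γ, hj⟩
      refine ⟨j - 1, γ, ?_⟩
      have e : S ^ (j - 1) * (S * x) = S ^ j * x := by
        rw [← mul_assoc, ← zpow_add_one]
        congr 2
        ring
      rw [e]
      exact hj
  have hcl := trans hΓ hU hUne hUΓ hUS hP hD hΔ hne
  have hh : h⁻¹ ∈ closure U := by rw [hcl]; exact mem_univ _
  have hN : {x : SLd d | h * x ∈ B₀} ∈ 𝓝 h⁻¹ := by
    have hc : Continuous (fun x : SLd d => h * x) := by fun_prop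
    apply hc.continuousAt.preimage_mem_nhds
    rw [mul_inv_cancel]
    exact hB₀.mem_nhds h1B₀
  obtain ⟨x, hx1, hx2⟩ := mem_closure_iff_nhds.1 hh _ hN
  obtain ⟨j, γ, hj⟩ := (hmem x).1 hx2
  have hx1' : h * x ∈ B₀ := hx1
  have hSz : S ^ j = h ^ ((q : ℤ) * j) := by
    rw [← hS, zpow_mul, zpow_natCast]
  rw [hSz] at hj
  have e1 : h ^ ((q : ℤ) * j) * x * (γ : SLd d) = h ^ ((q : ℤ) * j - 1) * (h * x) * γ := by
    have : h ^ ((q : ℤ) * j) = h ^ ((q : ℤ) * j - 1) * h := by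
      rw [← zpow_add_one]
      congr 1
      ring
    rw [this]
    group
  have hq' : (2 : ℤ) ≤ q := by exact_mod_cast hq
  rcases lt_or_ge 0 j with hj0 | hj0
  · obtain ⟨a, rfl⟩ := Int.eq_ofNat_of_zero_le hj0.le
    have ha : 1 ≤ a := by exact_mod_cast hj0
    have hqa : 2 ≤ q * a := by nlinarith
    refine ⟨q * a - 1, by omega, ⟨a, Or.inl (by omega)⟩, h * x, hB₀B hx1', _, hB₀B hj,
      (γ : SLd d)⁻¹, Γ.inv_mem γ.2, ?_⟩
    rw [e1]
    have e2 : h ^ ((q : ℤ) * (a : ℤ) - 1) = h ^ (q * a - 1) := by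
      rw [← zpow_natCast]
      congr 1
      push_cast [Nat.cast_sub (by omega : 1 ≤ q * a)]
      ring
    rw [e2]
    group
  · obtain ⟨a, ha⟩ := Int.eq_ofNat_of_zero_le (neg_nonneg.2 hj0)
    refine ⟨q * a + 1, by omega, ⟨a, Or.inr rfl⟩, _, hB₀B hj, h * x, hB₀B hx1', (γ : SLd d), γ.2, ?_⟩
    rw [e1]
    have e2 : h ^ ((q : ℤ) * j - 1) = (h ^ (q * a + 1))⁻¹ := by
      rw [← zpow_natCast, ← zpow_neg]
      congr 1
      push_cast
      have : j = -(a : ℤ) := by rw [← ha, neg_neg]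
      rw [this]
      ring
    rw [e2]
    group

end Pool.Agent.Y368.SLD
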