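import Pool.Agent.Y368.SLD.Conj
import Pool.Agent.Y368.SLD.Trans

/-!
# Closing for nice translations
-/

set_option autoImplicit false
set_option linter.unusedSectionVars false

open scoped Topology ContDiff
open Filter Set Metric

universe u

namespace Pool.Agent.Y368.SLD

open Pool.Agent.H718R2.G

variable {d : ℕ} [NeZero d]

/-- the stabiliser of a point -/
def stab {n : ℕ} {N : Type u} [TopologicalSpace N] [ChartedSpace (V n) N] {O : Set N}
    {act : SLd d → N → N} (hact : IsSLdAction d n N O act) {y : N} (hyO : y ∈ O) :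
    Subgroup (SLd d) where
  carrier := {g | act g y = y}
  mul_mem' := by
    intro a b ha hb
    show act (a * b) y = y
    rw [hact.mul _ _ y hyO, show act b y = y from hb, show act a y = y from ha]
  one_mem' := hact.one y hyO
  inv_mem' := by
    intro a ha
    show act a⁻¹ y = y
    have h1 : act a⁻¹ (act a y) = y := by
      rw [← hact.mul _ _ y hyO, inv_mul_cancel, hact.one y hyO]
    rwa [show act a y = y from ha] at h1

theorem stab_lat {n : ℕ} {N : Type u} [TopologicalSpace N] [ChartedSpace (V n) N] {O : Set N}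
    {act : SLd d → N → N} (hact : IsSLdAction d n N O act) {y : N} (hyO : y ∈ O)
    (hlat : IsLatticePt act y) : IsLat (stab hact hyO) := by
  obtain ⟨⟨W, hW, hWy⟩, K, hK, hKy⟩ := hlat
  refine ⟨⟨W, hW, fun g hg hgΓ => hWy g hg hgΓ⟩, K, hK, fun g => ?_⟩
  obtain ⟨k, hk, hgk⟩ := hKy g
  refine ⟨k, hk, ?_⟩
  show act (k⁻¹ * g) y = y
  rw [hact.mul _ _ y hyO, hgk, ← hact.mul _ _ y hyO, inv_mul_cancel, hact.one y hyO]

/-- `h` is nice: diagonalisable with distinct eigenvalues, of different moduli except for pairs of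
conjugate ones, and `h^q` has positive eigenvalues. -/
structure Nice (f : Frame d) (h : SLd d) (lam : Fin d → ℂ) (q : ℕ) : Prop where
  diag : Diag f h lam
  inj : ∀ i j, lam i = lam j → i = j
  two : 2 ≤ q
  pos : ∀ i, lam i ^ q = ((‖lam i‖ ^ q : ℝ) : ℂ)
  mod : ∀ i j, j ≠ i → j ≠ f.τ i → ‖lam i‖ ≠ ‖lam j‖

namespace Nice

variable {f : Frame d} {h : SLd d} {lam : Fin d → ℂ} {q : ℕ}

theorem norm_conj (hn : Nice f h lam q) (i : Fin d) : ‖lam (f.τ i)‖ = ‖lam i‖ := by
  rw [← hn.diag.conj, RCLike.norm_conj]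

theorem gap (hn : Nice f h lam q) : ∃ c : ℝ, 0 < c ∧ c ≤ 1 ∧ ∀ k : ℕ, 1 ≤ k →
    (∃ a : ℕ, k + 1 = q * a ∨ k = q * a + 1) → ∀ i j, j ≠ i → c ≤ ‖(lam j / lam i) ^ k - 1‖ := by
  have key : ∀ p : Fin d × Fin d, ∃ c : ℝ, 0 < c ∧ (p.2 ≠ p.1 → ∀ k : ℕ, 1 ≤ k →
      (∃ a : ℕ, k + 1 = q * a ∨ k = q * a + 1) → c ≤ ‖(lam p.2 / lam p.1) ^ k - 1‖) := by
    rintro ⟨i, j⟩
    by_cases hij : j = i
    · exact ⟨1, one_pos, fun h => absurd hij h⟩
    simp only
    have hi0 : 0 < ‖lam i‖ := norm_pos_iff.2 (hn.diag.ne i)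
    have hj0 : 0 < ‖lam j‖ := norm_pos_iff.2 (hn.diag.ne j)
    by_cases hj : j = f.τ i
    · -- conjugate eigenvalues
      have hz1 : lam j / lam i ≠ 1 := by
        intro h1
        rw [div_eq_one_iff_eq (hn.diag.ne i)] at h1
        exact hij (hn.inj _ _ h1)
      have hnorm : ‖lam j / lam i‖ = 1 := by
        rw [norm_div, hj, hn.norm_conj, div_self hi0.ne']
      have hzq : (lam j / lam i) ^ q = 1 := by
        rw [div_pow, hn.pos, hn.pos, hj, hn.norm_conj, div_self]
        have : ‖lam i‖ ^ q ≠ 0 := pow_ne_zero _ hi0.ne'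
        exact_mod_cast this
      refine ⟨‖lam j / lam i - 1‖, norm_pos_iff.2 (sub_ne_zero.2 hz1), fun _ k _ hk => ?_⟩
      obtain ⟨a, ha | ha⟩ := hk
      · have h1 : (lam j / lam i) ^ k * (lam j / lam i) = 1 := by
          rw [← pow_succ, ha, pow_mul, hzq, one_pow]
        have h2 : (lam j / lam i) ^ k = (lam j / lam i)⁻¹ := by
          rw [eq_inv_of_mul_eq_one_left h1]
        have hz0 : lam j / lam i ≠ 0 := norm_pos_iff.1 (by rw [hnorm]; exact one_pos)
        have h3 : (lam j / lam i)⁻¹ - 1 = -(lam j / lam i - 1) * (lam j / lam i)⁻¹ := by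
          rw [neg_mul, sub_mul, mul_inv_cancel₀ hz0, one_mul, neg_sub]
        rw [h2, h3, norm_mul, norm_neg, norm_inv, hnorm, inv_one, mul_one]
      · rw [ha, pow_succ, pow_mul, hzq, one_pow, one_mul]
    · have hne := hn.mod i j hij hj
      obtain ⟨ρ, hρ⟩ : ∃ ρ : ℝ, ρ = ‖lam j / lam i‖ := ⟨_, rfl⟩
      have hρ0 : 0 < ρ := by rw [hρ, norm_div]; positivity
      have hρ1 : ρ ≠ 1 := by
        intro h1
        rw [hρ, norm_div, div_eq_one_iff_eq hi0.ne'] at h1
        exact hne h1.symm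
      refine ⟨|ρ - 1|, abs_pos.2 (sub_ne_zero.2 hρ1), fun _ k hk _ => ?_⟩
      have h1 : |ρ ^ k - 1| ≤ ‖(lam j / lam i) ^ k - 1‖ := by
        have h2 := abs_norm_sub_norm_le ((lam j / lam i) ^ k) (1 : ℂ)
        rwa [norm_pow, norm_one, ← hρ] at h2
      refine le_trans ?_ h1
      rcases lt_or_gt_of_ne hρ1 with h3 | h3
      · have h4 : ρ ^ k ≤ ρ := by
          calc ρ ^ k ≤ ρ ^ 1 := pow_le_pow_of_le_one hρ0.le h3.le hk
            _ = ρ := pow_one _
        rw [abs_of_neg (by linarith), abs_of_neg (by linarith)]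
        linarith
      · have h4 : ρ ≤ ρ ^ k := by
          calc ρ = ρ ^ 1 := (pow_one _).symm
            _ ≤ ρ ^ k := pow_le_pow_right₀ h3.le hk
        rw [abs_of_pos (by linarith), abs_of_pos (by linarith)]
        linarith
  choose c hc0 hc using key
  obtain ⟨p₀, hp₀⟩ := Finite.exists_min c
  refine ⟨min 1 (c p₀), lt_min one_pos (hc0 _), min_le_left _ _, fun k hk hk' i j hij => ?_⟩
  exact (min_le_right _ _).trans ((hp₀ (i, j)).trans (hc (i, j) hij k hk hk'))

/-- the real diagonalisation of `h^q` -/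
theorem real_diag (hn : Nice f h lam q) : ∃ P Δ : SLd d, P * h ^ q = Δ * P ∧
    Δ.1 = Matrix.diagonal (fun i => ‖lam i‖ ^ q) := by
  obtain ⟨P₀, hP₀⟩ : ∃ P₀ : Md d, P₀ = fun i j =>
    if i ≤ f.τ i then (f.R i j).re else (f.R i j).im := ⟨_, rfl⟩
  have hRS : ∀ i j, (f.R * toC (h ^ q).1) i j = ((‖lam i‖ ^ q : ℝ) : ℂ) * f.R i j := by
    intro i j
    rw [hn.diag.pow]
    have e : f.R * (f.Q * Matrix.diagonal (fun i => lam i ^ q) * f.R) =
        (f.R * f.Q) * Matrix.diagonal (fun i => lam i ^ q) * f.R := by simp only [mul_assoc]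
    rw [e, f.RQ, one_mul, Matrix.diagonal_mul, hn.pos]
  have hPS : P₀ * (h ^ q).1 = Matrix.diagonal (fun i => ‖lam i‖ ^ q) * P₀ := by
    ext i j
    rw [Matrix.diagonal_mul]
    have h1 := hRS i j
    rw [Matrix.mul_apply] at h1
    rw [Matrix.mul_apply, hP₀]
    by_cases hi : i ≤ f.τ i
    · simp only [if_pos hi]
      have h2 := congrArg Complex.re h1
      rw [Complex.re_sum, Complex.re_ofReal_mul] at h2
      rw [← h2]
      refine Finset.sum_congr rfl fun l _ => ?_
      rw [toC_apply, Complex.re_mul_ofReal]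
    · simp only [if_neg hi]
      have h2 := congrArg Complex.im h1
      rw [Complex.im_sum, Complex.im_ofReal_mul] at h2
      rw [← h2]
      refine Finset.sum_congr rfl fun l _ => ?_
      rw [toC_apply, Complex.im_mul_ofReal]
  have hdet : P₀.det ≠ 0 := by
    intro h0
    obtain ⟨v, hv0, hv⟩ := Matrix.exists_mulVec_eq_zero_iff.2 h0
    apply hv0
    obtain ⟨w, hw⟩ : ∃ w : Fin d → ℂ, w = fun i => (v i : ℂ) := ⟨_, rfl⟩
    have hre : ∀ i, (f.R.mulVec w i).re = ∑ j, (f.R i j).re * v j := by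
      intro i
      rw [Matrix.mulVec, dotProduct, Complex.re_sum, hw]
      exact Finset.sum_congr rfl fun j _ => Complex.re_mul_ofReal _ _
    have him : ∀ i, (f.R.mulVec w i).im = ∑ j, (f.R i j).im * v j := by
      intro i
      rw [Matrix.mulVec, dotProduct, Complex.im_sum, hw]
      exact Finset.sum_congr rfl fun j _ => Complex.im_mul_ofReal _ _
    have hrow : ∀ i, ∑ j, P₀ i j * v j = 0 := fun i => congrFun hv i
    have hre' : ∀ i j, (f.R (f.τ i) j).re = (f.R i j).re := by
      intro i j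
      rw [← f.conj, Complex.conj_re]
    have him' : ∀ i j, (f.R (f.τ i) j).im = -(f.R i j).im := by
      intro i j
      rw [← f.conj, Complex.conj_im]
    have hRw : f.R.mulVec w = 0 := by
      funext i
      apply Complex.ext
      · rw [hre, Pi.zero_apply, Complex.zero_re]
        by_cases hi : i ≤ f.τ i
        · have h1 := hrow i
          rw [hP₀] at h1
          simpa only [if_pos hi] using h1
        · have h1 := hrow (f.τ i)
          rw [hP₀] at h1
          have h2 : f.τ i ≤ f.τ (f.τ i) := by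
            rw [f.inv]
            exact (not_le.1 hi).le
          simp only [if_pos h2, hre'] at h1
          exact h1
      · rw [him, Pi.zero_apply, Complex.zero_im]
        by_cases hi : i ≤ f.τ i
        · rcases eq_or_lt_of_le hi with h2 | h2
          · refine Finset.sum_eq_zero fun j _ => ?_
            have h3 := him' i j
            rw [← h2] at h3
            have h4 : (f.R i j).im = 0 := by linarith
            rw [h4, zero_mul]
          · have h1 := hrow (f.τ i)
            rw [hP₀] at h1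
            have h3 : ¬ f.τ i ≤ f.τ (f.τ i) := by
              rw [f.inv]
              exact not_le.2 h2
            simp only [if_neg h3, him', neg_mul, Finset.sum_neg_distrib, neg_eq_zero] at h1
            exact h1
        · have h1 := hrow i
          rw [hP₀] at h1
          simpa only [if_neg hi] using h1
    have hw0 : w = 0 := by
      have h1 : f.Q.mulVec (f.R.mulVec w) = w := by
        rw [Matrix.mulVec_mulVec, f.QR, Matrix.one_mulVec]
      rw [← h1, hRw, Matrix.mulVec_zero]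
    funext i
    have h1 := congrFun hw0 i
    rw [hw] at h1
    simpa using h1
  obtain ⟨a, ha⟩ : ∃ a : Fin d → ℝ, a = Function.update (fun _ => 1) 0 (P₀.det)⁻¹ := ⟨_, rfl⟩
  have hprod : ∏ i, a i = (P₀.det)⁻¹ := by
    rw [ha, Finset.prod_update_of_mem (Finset.mem_univ _), Finset.prod_const_one, mul_one]
  let P : SLd d := ⟨Matrix.diagonal a * P₀, by
    rw [Matrix.det_mul, Matrix.det_diagonal, hprod, inv_mul_cancel₀ hdet]⟩
  have hP1 : P.1 * (h ^ q).1 = Matrix.diagonal (fun i => ‖lam i‖ ^ q) * P.1 := by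
    show Matrix.diagonal a * P₀ * (h ^ q).1 =
      Matrix.diagonal (fun i => ‖lam i‖ ^ q) * (Matrix.diagonal a * P₀)
    rw [mul_assoc, hPS, ← mul_assoc, ← mul_assoc, Matrix.diagonal_mul_diagonal,
      Matrix.diagonal_mul_diagonal]
    congr 2
    funext i
    ring
  refine ⟨P, P * h ^ q * P⁻¹, by group, ?_⟩
  have h1 : (P * h ^ q * P⁻¹).1 = P.1 * (h ^ q).1 * (P⁻¹).1 := by
    rw [Matrix.SpecialLinearGroup.coe_mul, Matrix.SpecialLinearGroup.coe_mul]
  have h2 : P.1 * (P⁻¹).1 = 1 := by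
    rw [← Matrix.SpecialLinearGroup.coe_mul, mul_inv_cancel, Matrix.SpecialLinearGroup.coe_one]
  rw [h1, hP1, mul_assoc, h2, mul_one]

theorem close (hn : Nice f h lam q) {n : ℕ} {N : Type u} [TopologicalSpace N]
    [ChartedSpace (V n) N] {O : Set N} {act : SLd d → N → N} (hact : IsSLdAction d n N O act) {y : N}
    (hyO : y ∈ O) (hlat : IsLatticePt act y) : GroupClose act y h := by
  by_cases hall : ∀ i j, ‖lam i‖ = ‖lam j‖
  · -- finite order
    have hdet : ∏ i, ‖lam i‖ = 1 := by
      have h1 := toC_det h.1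
      rw [hn.diag.eq', Matrix.det_mul, Matrix.det_mul, Matrix.det_diagonal, h.2,
        Complex.ofReal_one] at h1
      have h2 : f.Q.det * f.R.det = 1 := by
        rw [← Matrix.det_mul, f.QR, Matrix.det_one]
      have h3 : ∏ i, lam i = 1 := by
        calc ∏ i, lam i = (f.Q.det * f.R.det) * ∏ i, lam i := by rw [h2, one_mul]
          _ = f.Q.det * (∏ i, lam i) * f.R.det := by ring
          _ = 1 := h1
      rw [← norm_prod, h3, norm_one]
    have hone : ∀ i, ‖lam i‖ = 1 := by
      intro i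
      have h1 : ∏ j, ‖lam j‖ = ‖lam i‖ ^ d := by
        rw [Finset.prod_congr rfl (fun j _ => hall j i), Finset.prod_const, Finset.card_univ,
          Fintype.card_fin]
      rw [h1] at hdet
      exact (pow_eq_one_iff_of_nonneg (norm_nonneg _) (NeZero.ne d)).1 hdet
    have hq1 : h ^ q = 1 := by
      apply Subtype.ext
      apply toC_inj
      rw [hn.diag.pow, Matrix.SpecialLinearGroup.coe_one, map_one]
      have e : (fun i => lam i ^ q) = fun _ => (1 : ℂ) := by
        funext i
        rw [hn.pos, hone, one_pow, Complex.ofReal_one]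
      rw [e, Matrix.diagonal_one, mul_one, f.QR]
    refine ⟨f.dim, f.hom, f.hom_fam, fun _ => 0, fun _ => 1, fun _ => q, tendsto_const_nhds,
      tendsto_const_nhds, Eventually.of_forall fun m => ⟨le_trans one_le_two hn.two, ?_⟩⟩
    simp only
    rw [f.hom_fam.zero, mul_one, mul_one, hq1]
  · push Not at hall
    obtain ⟨i₀, j₀, hij₀⟩ := hall
    obtain ⟨P, Δ, hP, hΔ⟩ := hn.real_diag
    have hpos : ∀ i, 0 < ‖lam i‖ ^ q := fun i => pow_pos (norm_pos_iff.2 (hn.diag.ne i)) _
    have hΓ := stab_lat hact hyO hlat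
    have : SecondCountableTopology (Md d) :=
      inferInstanceAs (SecondCountableTopology (Fin d → Fin d → ℝ))
    have : SecondCountableTopology (SLd d) :=
      (⟨rfl⟩ : Topology.IsInducing (fun x : SLd d => x.1)).secondCountableTopology
    obtain ⟨B, hB⟩ := (𝓝 (1 : SLd d)).exists_antitone_basis
    have hne : ∃ i j, (fun i => ‖lam i‖ ^ q) i ≠ (fun i => ‖lam i‖ ^ q) j := by
      refine ⟨i₀, j₀, fun h1 => hij₀ ?_⟩
      exact (pow_left_inj₀ (norm_nonneg _) (norm_nonneg _)
        (by have := hn.two; omega : q ≠ 0)).1 h1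
    have hret := fun m => ret hΓ hn.two rfl hP (D := fun i => ‖lam i‖ ^ q) hpos hΔ hne (B m)
      (hB.1.mem_of_mem trivial)
    choose k hk hka b hb b' hb' γ hγ hbγ using hret
    have hbt : Tendsto b atTop (𝓝 1) := hB.tendsto hb
    have hbt' : Tendsto b' atTop (𝓝 1) := hB.tendsto hb'
    have hvt : Tendsto (fun i => b i * (b' i)⁻¹) atTop (𝓝 1) := by
      have h1 := hbt.mul hbt'.inv
      rwa [inv_one, mul_one] at h1
    obtain ⟨c, hc, hc1, hgap⟩ := hn.gap
    obtain ⟨s, ξ, hs, hξ, hev⟩ := conj_seq f hn.diag hc hc1 k hk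
      (fun m => hgap (k m) (hk m) (hka m)) (fun i => b i * (b' i)⁻¹) hvt
    refine ⟨f.dim, f.hom, f.hom_fam, s, fun m => (ξ m)⁻¹ * b m, k, hs, ?_, ?_⟩
    · have h1 := hξ.inv.mul hbt
      rwa [inv_one, mul_one] at h1
    · filter_upwards [hev] with m hm
      refine ⟨hk m, ?_⟩
      have e : (h * f.hom (s m)) ^ k m * ((ξ m)⁻¹ * b m) = (ξ m)⁻¹ * b m * γ m := by
        have e1 : (h * f.hom (s m)) ^ k m = (ξ m)⁻¹ * (ξ m * (h * f.hom (s m)) ^ k m) := by group
        rw [e1, ← hm]
        calc (ξ m)⁻¹ * (b m * (b' m)⁻¹ * h ^ k m * ξ m) * ((ξ m)⁻¹ * b m)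
            = (ξ m)⁻¹ * b m * (b' m)⁻¹ * (h ^ k m * b m) := by group
          _ = _ := by
              rw [hbγ]
              group
      rw [e, hact.mul _ _ y hyO, show act (γ m) y = y from hγ m]

end Nice

end Pool.Agent.Y368.SLD
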