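import Pool.Agent.Y368.SLD.Vol

/-!
# Recurrence of translations of `SL(d, ℝ) / Γ`, `Γ` a discrete cocompact subgroup
-/

set_option autoImplicit false
set_option linter.unusedSectionVars false

open Filter Set Metric Topology MeasureTheory

universe u

namespace Pool.Agent.Y368.SLD

variable {d : ℕ} [NeZero d]

theorem countable_of_discrete (Γ : Subgroup (SLd d)) (W : Set (SLd d)) (hW : W ∈ 𝓝 (1 : SLd d))
    (hWΓ : ∀ g ∈ W, g ∈ Γ → g = 1) : Countable Γ := by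
  have : SecondCountableTopology (Md d) :=
    inferInstanceAs (SecondCountableTopology (Fin d → Fin d → ℝ))
  have : SecondCountableTopology (SLd d) :=
    (⟨rfl⟩ : Topology.IsInducing (fun x : SLd d => x.1)).secondCountableTopology
  have hd : DiscreteTopology Γ := by
    apply discreteTopology_of_isOpen_singleton_one
    have e : ({1} : Set Γ) = (fun g : Γ => (g : SLd d)) ⁻¹' (interior W) := by
      ext g
      rw [mem_singleton_iff, mem_preimage]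
      constructor
      · intro h1
        rw [h1]
        exact mem_interior_iff_mem_nhds.2 hW
      · intro h1
        exact Subtype.ext (hWΓ _ (interior_subset h1) g.2)
    rw [e]
    exact isOpen_interior.preimage continuous_subtype_val
  exact TopologicalSpace.separableSpace_iff_countable.1 inferInstance

theorem recur (Γ : Subgroup (SLd d)) (W : Set (SLd d)) (hW : W ∈ 𝓝 (1 : SLd d))
    (hWΓ : ∀ g ∈ W, g ∈ Γ → g = 1) (K : Set (SLd d)) (hK : IsCompact K)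
    (hKΓ : ∀ g, ∃ k ∈ K, k⁻¹ * g ∈ Γ) (h : SLd d) (B : Set (SLd d)) (hB : B ∈ 𝓝 (1 : SLd d)) :
    ∃ n : ℕ, 1 ≤ n ∧ ∃ b ∈ B, ∃ b' ∈ B, ∃ γ ∈ Γ, h ^ n * b = b' * γ := by
  have hcount := countable_of_discrete Γ W hW hWΓ
  -- a small open neighbourhood
  obtain ⟨B₀, hB₀o, hB₀1, hB₀B, hB₀W⟩ : ∃ B₀ : Set (SLd d), IsOpen B₀ ∧ (1 : SLd d) ∈ B₀ ∧ B₀ ⊆ B ∧
      ∀ b ∈ B₀, ∀ b' ∈ B₀, b'⁻¹ * b ∈ W := by
    obtain ⟨q, hq⟩ : ∃ q : SLd d × SLd d → SLd d, ∀ p, q p = p.2⁻¹ * p.1 := ⟨_, fun p => rfl⟩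
    have hc : Continuous q := by
      have : q = fun p => p.2⁻¹ * p.1 := funext hq
      rw [this]
      fun_prop
    have h1 : q ⁻¹' W ∈ 𝓝 ((1 : SLd d), (1 : SLd d)) := by
      apply hc.continuousAt.preimage_mem_nhds
      rw [hq]
      simpa using hW
    rw [nhds_prod_eq] at h1
    obtain ⟨u, hu, hu2⟩ := Filter.mem_prod_same_iff.1 h1
    obtain ⟨V, hV, hVo, hV1⟩ := mem_nhds_iff.1 (inter_mem hu hB)
    refine ⟨V, hVo, hV1, fun x hx => (hV hx).2, fun b hb b' hb' => ?_⟩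
    have h5 : q (b, b') ∈ W := hu2 (mk_mem_prod (hV hb).1 (hV hb').1)
    rwa [hq] at h5
  have : IsClosed K := by
    have : T2Space (SLd d) := (⟨⟨rfl⟩, Subtype.val_injective⟩ :
      Topology.IsEmbedding (fun x : SLd d => x.1)).t2Space
    exact hK.isClosed
  have hKm := cone_closed_meas this
  have hKfin := cone_fin hK
  let S : ℕ × Γ → Set (SLd d) := fun p => {x | (h ^ p.1)⁻¹ * x * (p.2 : SLd d) ∈ B₀}
  have hSo : ∀ p, IsOpen (S p) := by
    intro p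
    have hc : Continuous (fun x : SLd d => (h ^ p.1)⁻¹ * x * (p.2 : SLd d)) := by fun_prop
    exact hB₀o.preimage hc
  have hSm : ∀ p, MeasurableSet (cone (S p)) := fun p => (cone_open (hSo p)).measurableSet
  have hrow : ∀ n : ℕ, volume (cone B₀) ≤
      ∑' γ : Γ, (volume.restrict (cone K)) (cone (S (n, γ))) := by
    intro n
    have e1 : volume (cone {x | (h ^ n)⁻¹ * x ∈ B₀}) = volume (cone B₀) :=
      cone_left (h ^ n)⁻¹ (cone_open hB₀o).measurableSet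
    have hcov : cone {x | (h ^ n)⁻¹ * x ∈ B₀} ⊆
        ⋃ γ : Γ, cone {x | x * (γ : SLd d)⁻¹ ∈ S (n, γ) ∩ K} := by
      rintro X ⟨h1, h2, h3⟩
      obtain ⟨k, hk, hkγ⟩ := hKΓ (nrm (mk X))
      rw [mem_iUnion]
      refine ⟨⟨_, hkγ⟩, h1, h2, ?_, ?_⟩
      · show (h ^ n)⁻¹ * (nrm (mk X) * (k⁻¹ * nrm (mk X))⁻¹) * (k⁻¹ * nrm (mk X)) ∈ B₀
        have e2 : (h ^ n)⁻¹ * (nrm (mk X) * (k⁻¹ * nrm (mk X))⁻¹) * (k⁻¹ * nrm (mk X)) =
            (h ^ n)⁻¹ * nrm (mk X) := by group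
        rw [e2]
        exact h3
      · show nrm (mk X) * (k⁻¹ * nrm (mk X))⁻¹ ∈ K
        have e2 : nrm (mk X) * (k⁻¹ * nrm (mk X))⁻¹ = k := by group
        rw [e2]
        exact hk
    rw [← e1]
    refine (measure_mono hcov).trans ((measure_iUnion_le _).trans ?_)
    refine ENNReal.tsum_le_tsum fun γ => ?_
    have e3 : cone (S (n, γ) ∩ K) = cone (S (n, γ)) ∩ cone K := by
      ext X
      simp only [cone, mem_ofPred_eq, mem_inter_iff]
      tauto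
    have hm : MeasurableSet (cone (S (n, γ) ∩ K)) := by
      rw [e3]
      exact (hSm _).inter hKm
    rw [cone_right (γ : SLd d)⁻¹ hm, e3, Measure.restrict_apply (hSm _)]
  have hbig : (volume.restrict (cone K)) univ < ∑' p : ℕ × Γ,
      (volume.restrict (cone K)) (cone (S p)) := by
    have h1 : ∑' p : ℕ × Γ, (volume.restrict (cone K)) (cone (S p)) = ⊤ := by
      rw [ENNReal.summable.tsum_prod' (fun _ => ENNReal.summable), eq_top_iff]
      calc (⊤ : ENNReal) = ∑' _ : ℕ, volume (cone B₀) :=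
            (ENNReal.tsum_const_eq_top_of_ne_zero (cone_pos hB₀o hB₀1).ne').symm
        _ ≤ _ := ENNReal.tsum_le_tsum hrow
    rw [h1, Measure.restrict_apply_univ]
    exact hKfin
  obtain ⟨p, p', hne, X, hX, hX'⟩ := exists_nonempty_inter_of_measure_univ_lt_tsum_measure
    (volume.restrict (cone K)) (fun p => (hSm p).nullMeasurableSet) hbig
  have b1 : (h ^ p.1)⁻¹ * nrm (mk X) * (p.2 : SLd d) ∈ B₀ := hX.2.2
  have b2 : (h ^ p'.1)⁻¹ * nrm (mk X) * (p'.2 : SLd d) ∈ B₀ := hX'.2.2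
  -- the two cases
  have key : ∀ q q' : ℕ × Γ, q'.1 < q.1 → (h ^ q.1)⁻¹ * nrm (mk X) * (q.2 : SLd d) ∈ B₀ →
      (h ^ q'.1)⁻¹ * nrm (mk X) * (q'.2 : SLd d) ∈ B₀ →
      ∃ n : ℕ, 1 ≤ n ∧ ∃ b ∈ B, ∃ b' ∈ B, ∃ γ ∈ Γ, h ^ n * b = b' * γ := by
    intro q q' hlt c1 c2
    refine ⟨q.1 - q'.1, by omega, _, hB₀B c1, _, hB₀B c2, (q'.2 : SLd d)⁻¹ * q.2,
      Γ.mul_mem (Γ.inv_mem q'.2.2) q.2.2, ?_⟩
    have e1 : h ^ q.1 = h ^ q'.1 * h ^ (q.1 - q'.1) := by
      rw [← pow_add]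
      congr 1
      omega
    rw [e1]
    group
  rcases lt_trichotomy p.1 p'.1 with h1 | h1 | h1
  · exact key p' p h1 b2 b1
  · exfalso
    apply hne
    refine Prod.ext h1 ?_
    have h2 := hB₀W _ b1 _ b2
    rw [← h1] at h2
    have e2 : ((h ^ p.1)⁻¹ * nrm (mk X) * (p'.2 : SLd d))⁻¹ *
        ((h ^ p.1)⁻¹ * nrm (mk X) * (p.2 : SLd d)) = (p'.2 : SLd d)⁻¹ * p.2 := by group
    rw [e2] at h2
    have h3 := hWΓ _ h2 (Γ.mul_mem (Γ.inv_mem p'.2.2) p.2.2)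
    have h4 : (p.2 : SLd d) = p'.2 := by
      rw [inv_mul_eq_one] at h3
      exact h3.symm
    exact Subtype.ext h4
  · exact key p p' h1 b1 b2

end Pool.Agent.Y368.SLD
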