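import Pool.Agent.Y368.SLD.Defs

/-!
# Recurrence of translations of `SL(d, ℝ) / Γ`: volume

The invariant volume of `SL(d, ℝ)` is replaced by the Lebesgue measure of cones in the space of matrices.
-/

set_option autoImplicit false
set_option linter.unusedSectionVars false

open Filter Set Metric Topology MeasureTheory

universe u

namespace Pool.Agent.Y368.SLD

theorem sl_tendsto {d : ℕ} {ι : Type} {l : Filter ι} {g : ι → SLd d} {g₀ : SLd d} :
    Tendsto g l (𝓝 g₀) ↔ ∀ i j, Tendsto (fun k => (g k).1 i j) l (𝓝 (g₀.1 i j)) := by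
  have h1 : Topology.IsInducing (fun x : SLd d => x.1) := ⟨rfl⟩
  rw [h1.tendsto_nhds_iff]
  constructor
  · intro h i j
    have h2 : Continuous (fun M : Md d => M i j) := by fun_prop
    exact (h2.tendsto _).comp h
  · intro h
    exact tendsto_pi_nhds.2 fun i => tendsto_pi_nhds.2 fun j => h i j

variable {d : ℕ} [NeZero d]

/-- the `d`-th root -/
noncomputable def rt (d : ℕ) (x : ℝ) : ℝ := x ^ ((d : ℝ)⁻¹)

theorem rt_pow {x : ℝ} (hx : 0 ≤ x) : rt d x ^ d = x := Real.rpow_inv_natCast_pow hx (NeZero.ne d)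

theorem rt_pos {x : ℝ} (hx : 0 < x) : 0 < rt d x := Real.rpow_pos_of_pos hx _

theorem rt_of_pow {c : ℝ} (hc : 0 ≤ c) : rt d (c ^ d) = c := Real.pow_rpow_inv_natCast hc (NeZero.ne d)

/-- normalisation -/
noncomputable def nrm (X : Md d) : SLd d :=
  if hd : 0 < X.det then ⟨(rt d X.det)⁻¹ • X, by
    rw [Matrix.det_smul, Fintype.card_fin, inv_pow, rt_pow hd.le, inv_mul_cancel₀ hd.ne']⟩
  else 1

theorem nrm_eq {X : Md d} (hd : 0 < X.det) : (nrm X).1 = (rt d X.det)⁻¹ • X :=
  congrArg Subtype.val (dif_pos hd)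

theorem rt_cont {x : ℝ} (hx : 0 < x) : ContinuousAt (rt d) x :=
  Real.continuousAt_rpow_const _ _ (Or.inl hx.ne')

theorem nrm_tendsto {X : ℕ → Md d} (hX : Tendsto X atTop (𝓝 1)) :
    (∀ᶠ k in atTop, 0 < (X k).det) ∧ Tendsto (fun k => nrm (X k)) atTop (𝓝 1) := by
  have hd : Tendsto (fun k => (X k).det) atTop (𝓝 1) := by
    have h1 : Continuous (fun M : Md d => M.det) := continuous_id.matrix_det
    have h2 := (h1.tendsto 1).comp hX
    rwa [Matrix.det_one] at h2
  have hpos : ∀ᶠ k in atTop, 0 < (X k).det := hd.eventually (lt_mem_nhds one_pos)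
  refine ⟨hpos, ?_⟩
  rw [sl_tendsto]
  intro i j
  have h3 : Tendsto (fun k => (rt d (X k).det)⁻¹) atTop (𝓝 1) := by
    have h4 := ((rt_cont (d := d) one_pos).tendsto.comp hd).inv₀ (by
      have := rt_pos (d := d) one_pos
      exact this.ne')
    have h5 : rt d 1 = 1 := Real.one_rpow _
    rw [h5, inv_one] at h4
    exact h4
  have h6 : Tendsto (fun k => X k i j) atTop (𝓝 ((1 : Md d) i j)) := by
    have h7 : Continuous (fun M : Md d => M i j) := by fun_prop
    exact (h7.tendsto 1).comp hX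
  have h8 := h3.mul h6
  rw [one_mul] at h8
  refine h8.congr' ?_
  filter_upwards [hpos] with k hk
  rw [nrm_eq hk, Matrix.smul_apply, smul_eq_mul]

abbrev Ed (d : ℕ) := Fin d → Fin d → ℝ

/-- matrices as functions -/
def mk (X : Ed d) : Md d := Matrix.of X

theorem mk_cont : Continuous (mk : Ed d → Md d) := continuous_id

theorem right_mp (g : SLd d) :
    MeasurePreserving (fun X : Ed d => (fun i => (mk X * g.1) i : Ed d)) volume volume := by
  have hd : Matrix.det g.1.transpose = 1 := by rw [Matrix.det_transpose]; exact g.2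
  have h1 : MeasurePreserving (Matrix.toLin' g.1.transpose) volume volume := by
    refine ⟨by
      have : Continuous (Matrix.toLin' g.1.transpose) :=
        LinearMap.continuous_of_finiteDimensional _
      exact this.measurable, ?_⟩
    rw [Real.map_matrix_volume_pi_eq_smul_volume_pi (by rw [hd]; exact one_ne_zero), hd]
    simp
  have h2 := volume_preserving_pi (fun _ : Fin d => h1)
  have e : (fun (a : Fin d → Fin d → ℝ) (i : Fin d) => Matrix.toLin' g.1.transpose (a i)) =
      (fun X : Ed d => (fun i => (mk X * g.1) i : Ed d)) := by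
    funext X i
    rw [Matrix.toLin'_apply, Matrix.mulVec_transpose]
    rfl
  rwa [e] at h2

def trd : Ed d →ₗ[ℝ] Ed d where
  toFun X := fun i j => X j i
  map_add' _ _ := rfl
  map_smul' _ _ := rfl

theorem trd_mp : MeasurePreserving (trd : Ed d →ₗ[ℝ] Ed d) volume volume := by
  have h1 : (trd : Ed d →ₗ[ℝ] Ed d) ∘ₗ trd = LinearMap.id := by
    ext X
    rfl
  have h2 : LinearMap.det (trd : Ed d →ₗ[ℝ] Ed d) * LinearMap.det (trd : Ed d →ₗ[ℝ] Ed d) = 1 := by
    rw [← LinearMap.det_comp, h1, LinearMap.det_id]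
  have h3 : LinearMap.det (trd : Ed d →ₗ[ℝ] Ed d) ≠ 0 := by
    intro h0
    rw [h0, zero_mul] at h2
    exact zero_ne_one h2
  have h4 : |(LinearMap.det (trd : Ed d →ₗ[ℝ] Ed d))⁻¹| = 1 := by
    rw [abs_inv]
    have : |LinearMap.det (trd : Ed d →ₗ[ℝ] Ed d)| = 1 := by
      rw [← sq_eq_sq₀ (abs_nonneg _) zero_le_one, sq_abs, one_pow, sq, h2]
    rw [this, inv_one]
  refine ⟨(LinearMap.continuous_of_finiteDimensional trd).measurable, ?_⟩
  rw [Measure.map_linearMap_addHaar_eq_smul_addHaar volume h3, h4, ENNReal.ofReal_one, one_smul]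

theorem left_mp (g : SLd d) :
    MeasurePreserving (fun X : Ed d => (fun i => (g.1 * mk X) i : Ed d)) volume volume := by
  have h1 := trd_mp.comp ((right_mp g.transpose).comp trd_mp)
  have e : (trd ∘ (fun X : Ed d => (fun i => (mk X * g.transpose.1) i : Ed d)) ∘ trd) =
      (fun X : Ed d => (fun i => (g.1 * mk X) i : Ed d)) := by
    funext X
    have h2 : (mk (trd X) * g.transpose.1) = (g.1 * mk X).transpose := by
      rw [Matrix.transpose_mul]
      rfl
    funext i j
    show (mk (trd X) * g.transpose.1) j i = (g.1 * mk X) i j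
    rw [h2, Matrix.transpose_apply]
  rwa [e] at h1

theorem nrm_left (g : SLd d) {X : Md d} (hX : 0 < X.det) : nrm (g.1 * X) = g * nrm X := by
  have hd : (g.1 * X).det = X.det := by rw [Matrix.det_mul, g.2, one_mul]
  apply Subtype.ext
  have a : (g * nrm X).1 = g.1 * (nrm X).1 := Matrix.SpecialLinearGroup.coe_mul _ _
  rw [a, nrm_eq hX, nrm_eq (by rw [hd]; exact hX), hd, mul_smul_comm]

theorem nrm_right (g : SLd d) {X : Md d} (hX : 0 < X.det) : nrm (X * g.1) = nrm X * g := by
  have hd : (X * g.1).det = X.det := by rw [Matrix.det_mul, g.2, mul_one]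
  apply Subtype.ext
  have a : (nrm X * g).1 = (nrm X).1 * g.1 := Matrix.SpecialLinearGroup.coe_mul _ _
  rw [a, nrm_eq hX, nrm_eq (by rw [hd]; exact hX), hd, smul_mul_assoc]

theorem nrm_contOn : ContinuousOn nrm {X : Md d | 0 < X.det} := by
  have h1 : Topology.IsInducing (fun x : SLd d => x.1) := ⟨rfl⟩
  rw [h1.continuousOn_iff]
  have hdc : Continuous (fun X : Md d => X.det) := continuous_id.matrix_det
  have h2 : ContinuousOn (fun X : Md d => (rt d X.det)⁻¹ • X) {X : Md d | 0 < X.det} := by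
    intro X hX
    refine ContinuousAt.continuousWithinAt ?_
    have h3 : ContinuousAt (fun X : Md d => rt d X.det) X :=
      ContinuousAt.comp (f := fun X : Md d => X.det) (rt_cont (d := d) hX) hdc.continuousAt
    exact (h3.inv₀ (rt_pos (d := d) hX).ne').smul continuousAt_id
  exact h2.congr fun X hX => nrm_eq hX

/-- the cone over a subset of `SL(d, ℝ)` -/
def cone (S : Set (SLd d)) : Set (Ed d) := {X | 1 < (mk X).det ∧ (mk X).det < 4 ∧ nrm (mk X) ∈ S}

theorem det_cont : Continuous (fun X : Ed d => (mk X).det) :=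
  (continuous_id.matrix_det : Continuous fun X : Md d => X.det).comp mk_cont

theorem cone_open {S : Set (SLd d)} (hS : IsOpen S) : IsOpen (cone S) := by
  have h1 : IsOpen {X : Ed d | 1 < (mk X).det ∧ (mk X).det < 4} :=
    (isOpen_lt continuous_const det_cont).inter (isOpen_lt det_cont continuous_const)
  have h2 : ContinuousOn (fun X : Ed d => nrm (mk X)) {X : Ed d | 1 < (mk X).det ∧ (mk X).det < 4} :=
    nrm_contOn.comp mk_cont.continuousOn fun X hX => lt_trans one_pos hX.1
  have h3 := h2.isOpen_inter_preimage h1 hS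
  have e : cone S = {X : Ed d | 1 < (mk X).det ∧ (mk X).det < 4} ∩ (fun X : Ed d => nrm (mk X)) ⁻¹' S := by
    ext X
    simp only [cone, mem_ofPred_eq, mem_inter_iff, mem_preimage, and_assoc]
  rwa [e]

theorem cone_closed_meas {S : Set (SLd d)} (hS : IsClosed S) : MeasurableSet (cone S) := by
  have h1 : IsOpen {X : Ed d | 1 < (mk X).det ∧ (mk X).det < 4} :=
    (isOpen_lt continuous_const det_cont).inter (isOpen_lt det_cont continuous_const)
  have e : cone S = {X : Ed d | 1 < (mk X).det ∧ (mk X).det < 4} \ cone Sᶜ := by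
    ext X
    simp only [cone, mem_ofPred_eq, Set.mem_sdiff, mem_compl_iff]
    tauto
  rw [e]
  exact h1.measurableSet.diff (cone_open hS.isOpen_compl).measurableSet

theorem cone_left (g : SLd d) {S : Set (SLd d)} (hS : MeasurableSet (cone S)) :
    volume (cone {x | g * x ∈ S}) = volume (cone S) := by
  rw [← (left_mp g).measure_preimage hS.nullMeasurableSet]
  congr 1
  ext X
  have hd : (g.1 * mk X).det = (mk X).det := by rw [Matrix.det_mul, g.2, one_mul]
  show _ ↔ 1 < (g.1 * mk X).det ∧ (g.1 * mk X).det < 4 ∧ nrm (g.1 * mk X) ∈ S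
  rw [hd]
  constructor
  · rintro ⟨h1, h2, h3⟩
    refine ⟨h1, h2, ?_⟩
    rw [nrm_left g (lt_trans one_pos h1)]
    exact h3
  · rintro ⟨h1, h2, h3⟩
    refine ⟨h1, h2, ?_⟩
    rw [nrm_left g (lt_trans one_pos h1)] at h3
    exact h3

theorem cone_right (g : SLd d) {S : Set (SLd d)} (hS : MeasurableSet (cone S)) :
    volume (cone {x | x * g ∈ S}) = volume (cone S) := by
  rw [← (right_mp g).measure_preimage hS.nullMeasurableSet]
  congr 1
  ext X
  have hd : (mk X * g.1).det = (mk X).det := by rw [Matrix.det_mul, g.2, mul_one]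
  show _ ↔ 1 < (mk X * g.1).det ∧ (mk X * g.1).det < 4 ∧ nrm (mk X * g.1) ∈ S
  rw [hd]
  constructor
  · rintro ⟨h1, h2, h3⟩
    refine ⟨h1, h2, ?_⟩
    rw [nrm_right g (lt_trans one_pos h1)]
    exact h3
  · rintro ⟨h1, h2, h3⟩
    refine ⟨h1, h2, ?_⟩
    rw [nrm_right g (lt_trans one_pos h1)] at h3
    exact h3

theorem cone_pos {S : Set (SLd d)} (hS : IsOpen S) (h1 : (1 : SLd d) ∈ S) :
    0 < volume (cone S) := by
  obtain ⟨c, hc⟩ : ∃ c : ℝ, c = rt d 2 := ⟨_, rfl⟩
  have hc0 : 0 < c := by rw [hc]; exact rt_pos two_pos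
  have hcd : c ^ d = 2 := by rw [hc]; exact rt_pow two_pos.le
  refine (cone_open hS).measure_pos volume ⟨fun i j => (c • (1 : Md d)) i j, ?_⟩
  have e : mk (fun i j => (c • (1 : Md d)) i j) = c • (1 : Md d) := rfl
  have hd : (mk (fun i j => (c • (1 : Md d)) i j)).det = 2 := by
    rw [e, Matrix.det_smul, Matrix.det_one, Fintype.card_fin, hcd, mul_one]
  have hp : 0 < (mk (fun i j => (c • (1 : Md d)) i j)).det := by rw [hd]; norm_num
  refine ⟨by rw [hd]; norm_num, by rw [hd]; norm_num, ?_⟩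
  have h2 : nrm (mk (fun i j => (c • (1 : Md d)) i j)) = 1 := by
    apply Subtype.ext
    rw [nrm_eq hp, hd, e, smul_smul, ← hc, inv_mul_cancel₀ hc0.ne', one_smul]
    rfl
  rw [h2]
  exact h1

theorem cone_fin {K : Set (SLd d)} (hK : IsCompact K) : volume (cone K) < ⊤ := by
  have h1 : ∀ i j, ∃ M : ℝ, ∀ g ∈ K, ‖g.1 i j‖ ≤ M := by
    intro i j
    have h2 : Continuous (fun g : SLd d => g.1 i j) := by
      have h3 : Continuous (fun g : SLd d => g.1) := continuous_subtype_val
      have h4 : Continuous (fun M : Md d => M i j) := by fun_prop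
      exact h4.comp h3
    exact hK.exists_bound_of_continuousOn h2.continuousOn
  choose M hM using h1
  obtain ⟨M', hM'⟩ : ∃ M', M' = ∑ i, ∑ j, |M i j| := ⟨_, rfl⟩
  have hMM : ∀ i j, ∀ g ∈ K, |g.1 i j| ≤ M' := by
    intro i j g hg
    have h2 := (hM i j g hg).trans (le_abs_self _)
    rw [Real.norm_eq_abs] at h2
    refine h2.trans ?_
    rw [hM']
    have h3 : |M i j| ≤ ∑ j, |M i j| :=
      Finset.single_le_sum (f := fun j => |M i j|) (fun j _ => abs_nonneg _) (Finset.mem_univ j)
    refine h3.trans ?_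
    exact Finset.single_le_sum (f := fun i => ∑ j, |M i j|)
      (fun i _ => Finset.sum_nonneg fun j _ => abs_nonneg _) (Finset.mem_univ i)
  refine lt_of_le_of_lt (measure_mono (t := closedBall (0 : Ed d) (4 * M')) ?_)
    measure_closedBall_lt_top
  rintro X ⟨h1, h2, h3⟩
  have hp : 0 < (mk X).det := lt_trans one_pos h1
  have hM0 : 0 ≤ M' := (abs_nonneg _).trans (hMM 0 0 _ h3)
  rw [mem_closedBall, dist_zero_right, pi_norm_le_iff_of_nonneg (by positivity)]
  intro i
  rw [pi_norm_le_iff_of_nonneg (by positivity)]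
  intro j
  have h4 := hMM i j _ h3
  have h5 : 0 < rt d (mk X).det := rt_pos hp
  rw [nrm_eq hp, Matrix.smul_apply, smul_eq_mul, abs_mul, abs_inv, abs_of_pos h5] at h4
  rw [inv_mul_le_iff₀ h5] at h4
  have h6 : rt d (mk X).det ≤ 4 := by
    have h7 : rt d (mk X).det ^ 1 ≤ rt d (mk X).det ^ d := by
      refine pow_le_pow_right₀ ?_ (Nat.one_le_iff_ne_zero.2 (NeZero.ne d))
      exact Real.one_le_rpow h1.le (by positivity)
    rw [rt_pow hp.le, pow_one] at h7
    linarith
  rw [Real.norm_eq_abs]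
  refine h4.trans ?_
  exact mul_le_mul_of_nonneg_right h6 hM0

end Pool.Agent.Y368.SLD
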